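import Pool.Agent.Helper435.RT.Def

/-!
# Real functions built by exponentials and integrations: the number of zeros

The real functions which are obtained from the constants by additions, multiplications, exponentials
and integrations, with a bounded number of nested operations, have a bounded number of zeros, if
they are not zero (Khovanskii). The proof is an induction along a tower of filtered rings of
functions, with the theorem of Rolle.
-/

set_option autoImplicit false

namespace Pool.Agent.Helper435.RT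

open Filter Topology

theorem RExp.succ {n : ℕ} {f : ℝ → ℝ} (h : RExp n f) : RExp (n + 1) f := by
  induction h with
  | const n c => exact RExp.const _ c
  | add _ _ h1 h2 => exact h1.add h2
  | mul _ _ h1 h2 => exact h1.mul h2
  | exp _ h1 => exact h1.exp
  | prim hF _ h1 => exact RExp.prim hF h1

theorem RExp.mono {m n : ℕ} {f : ℝ → ℝ} (h : RExp m f) (hmn : m ≤ n) : RExp n f := by
  induction n, hmn using Nat.le_induction with
  | base => exact h
  | succ n _ ih => exact ih.succ

/-! ### the identity theorem -/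

theorem eq_zero_of_freq {U : ℂ → ℂ} (hU : Differentiable ℂ U) (x : ℝ)
    (h : ∃ᶠ t : ℝ in 𝓝[≠] x, U t = 0) : ∀ z, U z = 0 := by
  have h1 : Tendsto (fun t : ℝ => (t : ℂ)) (𝓝[≠] x) (𝓝[≠] (x : ℂ)) := by
    apply tendsto_nhdsWithin_of_tendsto_nhds_of_eventually_within
    · exact (Complex.continuous_ofReal.tendsto x).mono_left nhdsWithin_le_nhds
    · filter_upwards [self_mem_nhdsWithin] with t ht h0
      exact ht (Complex.ofReal_injective h0)
  have h2 : ∃ᶠ z in 𝓝[≠] (x : ℂ), U z = 0 := h1.frequently h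
  have h3 : AnalyticOnNhd ℂ U Set.univ := hU.differentiableOn.analyticOnNhd isOpen_univ
  have h4 : AnalyticOnNhd ℂ (fun _ : ℂ => (0 : ℂ)) Set.univ := fun _ _ => analyticAt_const
  have h5 := h3.eq_of_frequently_eq h4 h2
  intro z
  exact congrFun h5 z

/-- differentiable functions which extend to entire functions -/
def Ent (f : ℝ → ℝ) : Prop :=
  Differentiable ℝ f ∧ ∃ U : ℂ → ℂ, Differentiable ℂ U ∧ ∀ t : ℝ, U t = f t

theorem Ent.const (c : ℝ) : Ent fun _ => c :=
  ⟨differentiable_const c, fun _ => c, differentiable_const _, fun _ => rfl⟩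

theorem Ent.add {f g : ℝ → ℝ} (hf : Ent f) (hg : Ent g) : Ent (f + g) := by
  obtain ⟨hf1, U, hU, hU'⟩ := hf
  obtain ⟨hg1, V, hV, hV'⟩ := hg
  refine ⟨hf1.add hg1, fun z => U z + V z, hU.add hV, fun t => ?_⟩
  change U t + V t = ((f t + g t : ℝ) : ℂ)
  rw [hU', hV', ← Complex.ofReal_add]

theorem Ent.mul {f g : ℝ → ℝ} (hf : Ent f) (hg : Ent g) : Ent (f * g) := by
  obtain ⟨hf1, U, hU, hU'⟩ := hf
  obtain ⟨hg1, V, hV, hV'⟩ := hg
  refine ⟨hf1.mul hg1, fun z => U z * V z, hU.mul hV, fun t => ?_⟩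
  change U t * V t = ((f t * g t : ℝ) : ℂ)
  rw [hU', hV', ← Complex.ofReal_mul]

theorem Ent.exp {f : ℝ → ℝ} (hf : Ent f) : Ent fun t => Real.exp (f t) := by
  obtain ⟨hf1, U, hU, hU'⟩ := hf
  refine ⟨hf1.exp, fun z => Complex.exp (U z), hU.cexp, fun t => ?_⟩
  change Complex.exp (U t) = ((Real.exp (f t) : ℝ) : ℂ)
  rw [hU', Complex.ofReal_exp]

theorem exists_primitive {V : ℂ → ℂ} (hV : Differentiable ℂ V) {F : ℝ → ℝ} (hF : Differentiable ℝ F)
    (hV' : ∀ t : ℝ, V t = deriv F t) :
    ∃ W : ℂ → ℂ, (∀ z, HasDerivAt W (V z) z) ∧ ∀ t : ℝ, W t = F t := by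
  obtain ⟨W, hW0, hW⟩ := hV.isExactOn_univ.with_val_at 0 (F 0 : ℂ)
  have hW' : ∀ z, HasDerivAt W (V z) z := fun z => hW z (Set.mem_univ z)
  refine ⟨W, hW', ?_⟩
  have hd : ∀ t : ℝ, HasDerivAt (fun t : ℝ => W t - (F t : ℂ)) 0 t := by
    intro t
    have h3 : HasDerivAt (fun t : ℝ => W t) (V t) t := (hW' t).comp_ofReal
    have h4 : HasDerivAt (fun t : ℝ => (F t : ℂ)) ((deriv F t : ℝ) : ℂ) t :=
      (hF t).hasDerivAt.ofReal_comp
    have h5 := h3.sub h4
    rw [hV' t, sub_self] at h5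
    exact h5
  intro t
  have h6 := is_const_of_deriv_eq_zero (fun t => (hd t).differentiableAt)
    (fun t => (hd t).deriv) t 0
  simp only [Complex.ofReal_zero, hW0, sub_self] at h6
  exact sub_eq_zero.1 h6

theorem Ent.prim {F : ℝ → ℝ} (hF : Differentiable ℝ F) (h : Ent (deriv F)) : Ent F := by
  obtain ⟨-, V, hV, hV'⟩ := h
  obtain ⟨W, hW, hW'⟩ := exists_primitive hV hF hV'
  exact ⟨hF, W, fun z => (hW z).differentiableAt, hW'⟩

theorem Ent.zero {f : ℝ → ℝ} (hf : Ent f) {T : ℝ} (h : ∀ t, T ≤ t → f t = 0) : f = 0 := by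
  obtain ⟨-, U, hU, hU'⟩ := hf
  have h2 : ∀ᶠ t : ℝ in 𝓝[≠] (T + 1), U t = 0 := by
    have h3 : ∀ᶠ t in 𝓝 (T + 1), T < t := lt_mem_nhds (by linarith)
    filter_upwards [h3.filter_mono nhdsWithin_le_nhds] with t ht
    rw [hU', h t ht.le, Complex.ofReal_zero]
  have h4 := eq_zero_of_freq hU (T + 1) h2.frequently
  funext t
  have h5 := h4 t
  rw [hU'] at h5
  exact_mod_cast h5

/-! ### the theorem of Rolle -/

theorem rolle_count {f b : ℝ → ℝ} (hf : Differentiable ℝ f) (hb : Differentiable ℝ b) {m k : ℕ}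
    (hb0 : {t | b t = 0}.encard ≤ m)
    (hN0 : {t | deriv f t * b t - f t * deriv b t = 0}.encard ≤ k) :
    {t | f t = 0}.encard ≤ (k + 2 * m + 1 : ℕ) := by
  classical
  have hbf : {t | b t = 0}.Finite := Set.finite_of_encard_le_coe hb0
  have hNf : {t | deriv f t * b t - f t * deriv b t = 0}.Finite := Set.finite_of_encard_le_coe hN0
  have hφ : ∀ t, b t ≠ 0 → HasDerivAt (fun t => f t / b t)
      ((deriv f t * b t - f t * deriv b t) / b t ^ 2) t := fun t ht =>
    (hf t).hasDerivAt.div (hb t).hasDerivAt ht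
  have hcb : hbf.toFinset.card ≤ m := by
    rw [hbf.encard_eq_coe_toFinset_card] at hb0
    exact_mod_cast hb0
  have hcN : hNf.toFinset.card ≤ k := by
    rw [hNf.encard_eq_coe_toFinset_card] at hN0
    exact_mod_cast hN0
  have h1 : ({t | f t = 0} \ {t | b t = 0}).encard ≤ ((k + m + 1 : ℕ) : ℕ∞) := by
    by_contra hcon
    push Not at hcon
    have h2 : ((k + m + 2 : ℕ) : ℕ∞) ≤ ({t | f t = 0} \ {t | b t = 0}).encard := by
      have h3 := Order.add_one_le_of_lt hcon
      exact_mod_cast h3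
    obtain ⟨s, hs, hsc⟩ := Set.exists_subset_encard_eq h2
    have hsf : s.Finite := Set.finite_of_encard_eq_coe hsc
    have h3 : hsf.toFinset.card = k + m + 2 := by
      rw [hsf.encard_eq_coe_toFinset_card] at hsc
      exact_mod_cast hsc
    have h4 : hsf.toFinset.card ≤ (hbf.toFinset ∪ hNf.toFinset).card + 1 := by
      apply Finset.card_le_of_interleaved
      intro x hx y hy hxy _
      have hx' := hs (hsf.mem_toFinset.1 hx)
      have hy' := hs (hsf.mem_toFinset.1 hy)
      by_cases hz : ∃ z, b z = 0 ∧ x < z ∧ z < y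
      · obtain ⟨z, hz0, hz1, hz2⟩ := hz
        exact ⟨z, Finset.mem_union_left _ (hbf.mem_toFinset.2 hz0), hz1, hz2⟩
      · push Not at hz
        have hne : ∀ z ∈ Set.Icc x y, b z ≠ 0 := by
          intro z hz1 h0
          rcases eq_or_lt_of_le hz1.1 with h5 | h5
          · rw [← h5] at h0
            exact hx'.2 h0
          rcases eq_or_lt_of_le hz1.2 with h6 | h6
          · rw [h6] at h0
            exact hy'.2 h0
          exact absurd (hz z h0 h5) (not_le.2 h6)
        obtain ⟨c, hc, hc2⟩ := exists_deriv_eq_slope (fun t => f t / b t) hxy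
          (fun u hu => (hφ u (hne u hu)).continuousAt.continuousWithinAt)
          (fun u hu => (hφ u (hne u ⟨hu.1.le, hu.2.le⟩)).differentiableAt.differentiableWithinAt)
        have hfx : f x = 0 := hx'.1
        have hfy : f y = 0 := hy'.1
        have hbc := hne c ⟨hc.1.le, hc.2.le⟩
        rw [(hφ c hbc).deriv, hfx, hfy, zero_div, zero_div, sub_self, zero_div] at hc2
        have h5 := (div_eq_zero_iff.1 hc2).resolve_right (pow_ne_zero 2 hbc)
        exact ⟨c, Finset.mem_union_right _ (hNf.mem_toFinset.2 h5), hc.1, hc.2⟩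
    have h5 := Finset.card_union_le hbf.toFinset hNf.toFinset
    omega
  have h2 : {t | f t = 0} ⊆ ({t | f t = 0} \ {t | b t = 0}) ∪ {t | b t = 0} := by
    intro t ht
    by_cases h : b t = 0
    · exact Or.inr h
    · exact Or.inl ⟨ht, h⟩
  calc {t | f t = 0}.encard ≤ _ := Set.encard_le_encard h2
    _ ≤ _ := Set.encard_union_le _ _
    _ ≤ ((k + m + 1 : ℕ) : ℕ∞) + (m : ℕ∞) := add_le_add h1 hb0
    _ = ((k + 2 * m + 1 : ℕ) : ℕ∞) := by
      rw [← Nat.cast_add]
      congr 1
      ring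

theorem prop_of_wronsk {f b : ℝ → ℝ} (hf : Ent f) (hb : Ent b) (hbf : {t | b t = 0}.Finite)
    (hN : ∀ t, deriv f t * b t - f t * deriv b t = 0) : ∃ c : ℝ, ∀ t, f t = c * b t := by
  have hφ : ∀ t, b t ≠ 0 → HasDerivAt (fun t => f t / b t)
      ((deriv f t * b t - f t * deriv b t) / b t ^ 2) t := fun t ht =>
    (hf.1 t).hasDerivAt.div (hb.1 t).hasDerivAt ht
  obtain ⟨T0, hT0⟩ := hbf.bddAbove
  have hT : ∀ t, T0 + 1 ≤ t → b t ≠ 0 := by
    intro t ht h0
    have := hT0 h0
    linarith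
  set T := T0 + 1 with hTdef
  have hconst : ∀ t, T ≤ t → f t / b t = f T / b T := by
    intro t ht
    rcases eq_or_lt_of_le ht with rfl | ht
    · rfl
    · obtain ⟨c, hc, hc2⟩ := exists_deriv_eq_slope (fun t => f t / b t) ht
        (fun s hs => (hφ s (hT s hs.1)).continuousAt.continuousWithinAt)
        (fun s hs => (hφ s (hT s hs.1.le)).differentiableAt.differentiableWithinAt)
      rw [(hφ c (hT c hc.1.le)).deriv, hN c, zero_div] at hc2
      have h1 : t - T ≠ 0 := (sub_pos.2 ht).ne'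
      have h2 := (div_eq_zero_iff.1 hc2.symm).resolve_right h1
      exact sub_eq_zero.1 h2
  have h1 : Ent (f + (fun _ => -(f T / b T)) * b) := hf.add ((Ent.const _).mul hb)
  have h2 := h1.zero (T := T) (fun t ht => by
    have h3 := hconst t ht
    rw [div_eq_iff (hT t ht)] at h3
    simp only [Pi.add_apply, Pi.mul_apply]
    rw [h3]
    ring)
  refine ⟨f T / b T, fun t => ?_⟩
  have h3 := congrFun h2 t
  simp only [Pi.add_apply, Pi.mul_apply, Pi.zero_apply] at h3
  linarith

/-! ### filtered rings of functions -/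

/-- A filtered ring of functions which extend to entire functions, closed under differentiation,
with bounds for the numbers of zeros. -/
structure QGood (A : ℕ → Set (ℝ → ℝ)) (D : ℕ) (W : ℕ → ℕ) : Prop where
  mono : ∀ {d e : ℕ} {f : ℝ → ℝ}, d ≤ e → f ∈ A d → f ∈ A e
  const : ∀ c : ℝ, (fun _ => c) ∈ A 0
  add : ∀ {d : ℕ} {f g : ℝ → ℝ}, f ∈ A d → g ∈ A d → f + g ∈ A d
  mul : ∀ {d e : ℕ} {f g : ℝ → ℝ}, f ∈ A d → g ∈ A e → f * g ∈ A (d + e)
  ent : ∀ {d : ℕ} {f : ℝ → ℝ}, f ∈ A d → Ent f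
  der : ∀ {d : ℕ} {f : ℝ → ℝ}, f ∈ A d → deriv f ∈ A (d + D)
  zeros : ∀ {d : ℕ} {f : ℝ → ℝ}, f ∈ A d → f ≠ 0 → {t | f t = 0}.encard ≤ W d

theorem QGood.weaken {A : ℕ → Set (ℝ → ℝ)} {D D' : ℕ} {W W' : ℕ → ℕ} (h : QGood A D W)
    (hD : D ≤ D') (hW : ∀ d, W d ≤ W' d) : QGood A D' W' where
  mono := h.mono
  const := h.const
  add := h.add
  mul := h.mul
  ent := h.ent
  der := fun hf => h.mono (by omega) (h.der hf)
  zeros := fun hf h0 => (h.zeros hf h0).trans (by exact_mod_cast hW _)

theorem qgood_base : QGood (fun _ => {f | ∃ c : ℝ, f = fun _ => c}) 0 (fun _ => 0) where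
  mono := fun _ h => h
  const := fun c => ⟨c, rfl⟩
  add := by
    rintro d _ _ ⟨c, rfl⟩ ⟨c', rfl⟩
    exact ⟨c + c', rfl⟩
  mul := by
    rintro d e _ _ ⟨c, rfl⟩ ⟨c', rfl⟩
    exact ⟨c * c', rfl⟩
  ent := by
    rintro d _ ⟨c, rfl⟩
    exact Ent.const c
  der := by
    rintro d _ ⟨c, rfl⟩
    refine ⟨0, ?_⟩
    funext t
    exact deriv_const t c
  zeros := by
    rintro d _ ⟨c, rfl⟩ h0
    have h1 : {t : ℝ | (fun _ : ℝ => c) t = 0} = ∅ := by
      ext t
      simp only [Set.mem_ofPred_eq, Set.mem_empty_iff_false, iff_false]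
      intro hc
      exact h0 (by funext s; exact hc)
    rw [h1, Set.encard_empty]
    exact zero_le

section

variable {A : ℕ → Set (ℝ → ℝ)} {D : ℕ} {W : ℕ → ℕ}

theorem QGood.smul (hA : QGood A D W) {d : ℕ} {f : ℝ → ℝ} (hf : f ∈ A d) (c : ℝ) :
    (fun _ => c) * f ∈ A d := by
  have h := hA.mul (hA.const c) hf
  rwa [zero_add] at h

theorem QGood.zero (hA : QGood A D W) (d : ℕ) : (0 : ℝ → ℝ) ∈ A d :=
  hA.mono (Nat.zero_le d) (hA.const 0)

theorem QGood.sub (hA : QGood A D W) {d : ℕ} {f g : ℝ → ℝ} (hf : f ∈ A d) (hg : g ∈ A d) :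
    f - g ∈ A d := by
  have h := hA.add hf (hA.smul hg (-1))
  have h1 : f + (fun _ => (-1 : ℝ)) * g = f - g := by
    funext t
    simp only [Pi.add_apply, Pi.mul_apply, Pi.sub_apply]
    ring
  rwa [h1] at h

theorem QGood.sum (hA : QGood A D W) {ι : Type*} {d : ℕ} (s : Finset ι) {f : ι → ℝ → ℝ}
    (hf : ∀ i ∈ s, f i ∈ A d) : ∑ i ∈ s, f i ∈ A d := by
  classical
  induction s using Finset.induction_on with
  | empty => simpa using hA.zero d
  | insert a s ha ih =>
    rw [Finset.sum_insert ha]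
    exact hA.add (hf a (Finset.mem_insert_self a s))
      (ih fun i hi => hf i (Finset.mem_insert_of_mem hi))

theorem QGood.diff (hA : QGood A D W) {d : ℕ} {f : ℝ → ℝ} (hf : f ∈ A d) : Differentiable ℝ f :=
  (hA.ent hf).1

theorem hasDeriv_sum (hA : QGood A D W) {y : ℝ → ℝ} {y' : ℝ → ℝ} (hy : ∀ t, HasDerivAt y (y' t) t)
    {d : ℕ} {a : ℕ → ℝ → ℝ} (ha : ∀ k, a k ∈ A d) (n : ℕ) (t : ℝ) :
    HasDerivAt (fun t => ∑ k ∈ Finset.range n, a k t * y t ^ k)
      (∑ k ∈ Finset.range n, (deriv (a k) t * y t ^ k + a k t * (k * y t ^ (k - 1) * y' t))) t := by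
  have h := HasDerivAt.fun_sum (u := Finset.range n) (A := fun k t => a k t * y t ^ k)
    (A' := fun k => deriv (a k) t * y t ^ k + a k t * (k * y t ^ (k - 1) * y' t)) (x := t)
    (fun k _ => (hA.diff (ha k) t).hasDerivAt.mul ((hy t).pow k))
  exact h

theorem ent_sum {y : ℝ → ℝ} (hy : Ent y) {a : ℕ → ℝ → ℝ} (ha : ∀ k, Ent (a k)) (n : ℕ) :
    Ent (fun t => ∑ k ∈ Finset.range n, a k t * y t ^ k) := by
  have hpow : ∀ k, Ent (fun t => y t ^ k) := by
    intro k
    induction k with
    | zero => simpa only [pow_zero] using Ent.const 1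
    | succ k ih =>
      have h := ih.mul hy
      have h1 : (fun t => y t ^ k) * y = fun t => y t ^ (k + 1) := by
        funext t
        simp only [Pi.mul_apply, pow_succ]
      rwa [h1] at h
  induction n with
  | zero => simpa only [Finset.range_zero, Finset.sum_empty] using Ent.const 0
  | succ n ih =>
    have h := ih.add ((ha n).mul (hpow n))
    have h1 : (fun t => ∑ k ∈ Finset.range n, a k t * y t ^ k) + a n * (fun t => y t ^ n) =
        fun t => ∑ k ∈ Finset.range (n + 1), a k t * y t ^ k := by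
      funext t
      simp only [Pi.add_apply, Pi.mul_apply, Finset.sum_range_succ]
    rwa [h1] at h

/-- the bound for the number of zeros of a polynomial with less than `n` coefficients in `A d` -/
def Zc (q : ℕ) (W : ℕ → ℕ) : ℕ → ℕ → ℕ
  | 0, _ => 0
  | n + 1, d => Zc q W n d + (Zc q W n (2 * d + q) + 2 * W d + 1)

/-- The step of the induction. -/
theorem count_step {f b g : ℝ → ℝ} (hf : Ent f) (hb : Ent b) (hf0 : f ≠ 0) {m k : ℕ}
    (hbm : {t | b t = 0}.encard ≤ m)
    (hg : ∀ t, deriv f t * b t - f t * deriv b t = 0 ↔ g t = 0)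
    (hgk : g ≠ 0 → {t | g t = 0}.encard ≤ k) : {t | f t = 0}.encard ≤ (k + 2 * m + 1 : ℕ) := by
  by_cases h0 : g = 0
  · obtain ⟨c, hc⟩ := prop_of_wronsk hf hb (Set.finite_of_encard_le_coe hbm)
      (fun t => (hg t).2 (congrFun h0 t))
    have hc0 : c ≠ 0 := by
      rintro rfl
      exact hf0 (funext fun t => by rw [hc t, zero_mul]; rfl)
    have h1 : {t | f t = 0} ⊆ {t | b t = 0} := by
      intro t ht
      have h2 : f t = 0 := ht
      rw [hc t] at h2
      exact (mul_eq_zero.1 h2).resolve_left hc0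
    refine (Set.encard_le_encard h1).trans (hbm.trans ?_)
    exact_mod_cast (by omega : m ≤ k + 2 * m + 1)
  · refine rolle_count hf.1 hb.1 hbm ?_
    have h1 : {t | deriv f t * b t - f t * deriv b t = 0} = {t | g t = 0} := by
      ext t
      exact hg t
    rw [h1]
    exact hgk h0

theorem count_exp (hA : QGood A D W) {e : ℕ} {g : ℝ → ℝ} (hg : g ∈ A e) (n : ℕ) :
    ∀ (d : ℕ) (a : ℕ → ℝ → ℝ), (∀ k, a k ∈ A d) →
      (fun t => ∑ k ∈ Finset.range n, a k t * Real.exp (g t) ^ k) ≠ 0 →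
      {t | ∑ k ∈ Finset.range n, a k t * Real.exp (g t) ^ k = 0}.encard ≤ Zc (e + D) W n d := by
  induction n with
  | zero =>
    intro d a _ h0
    exfalso
    apply h0
    funext t
    simp
  | succ n ih =>
    intro d a ha h0
    have hsplit : ∀ t, ∑ k ∈ Finset.range (n + 1), a k t * Real.exp (g t) ^ k =
        Real.exp (g t) * ∑ k ∈ Finset.range n, a (k + 1) t * Real.exp (g t) ^ k + a 0 t := by
      intro t
      rw [Finset.sum_range_succ', Finset.mul_sum, pow_zero, mul_one]
      congr 1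
      refine Finset.sum_congr rfl fun k _ => ?_
      ring
    have hexp : ∀ t, Real.exp (g t) ≠ 0 := fun t => (Real.exp_pos _).ne'
    by_cases hz : a 0 = 0
    · have hiff : ∀ t, ∑ k ∈ Finset.range (n + 1), a k t * Real.exp (g t) ^ k = 0 ↔
          ∑ k ∈ Finset.range n, a (k + 1) t * Real.exp (g t) ^ k = 0 := by
        intro t
        rw [hsplit, hz, Pi.zero_apply, add_zero, mul_eq_zero, or_iff_right (hexp t)]
      have h1 : {t | ∑ k ∈ Finset.range (n + 1), a k t * Real.exp (g t) ^ k = 0} =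
          {t | ∑ k ∈ Finset.range n, a (k + 1) t * Real.exp (g t) ^ k = 0} := by
        ext t
        exact hiff t
      rw [h1]
      refine (ih d (fun k => a (k + 1)) (fun k => ha (k + 1)) fun h2 => h0 ?_).trans ?_
      · funext t
        exact (hiff t).2 (congrFun h2 t)
      · change ((Zc (e + D) W n d : ℕ) : ℕ∞) ≤ ((Zc (e + D) W (n + 1) d : ℕ) : ℕ∞)
        exact_mod_cast (Nat.le_add_right _ _)
    · have hy : ∀ t, HasDerivAt (fun t => Real.exp (g t)) (Real.exp (g t) * deriv g t) t :=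
        fun t => (hA.diff hg t).hasDerivAt.exp
      have hd : ∀ t, HasDerivAt (fun t => ∑ k ∈ Finset.range (n + 1), a k t * Real.exp (g t) ^ k) _ t :=
        fun t => hasDeriv_sum hA hy ha (n + 1) t
      let c : ℕ → ℝ → ℝ := fun k => (deriv (a (k + 1)) +
        ((fun _ => (k + 1 : ℝ)) * (a (k + 1) * deriv g))) * a 0 - a (k + 1) * deriv (a 0)
      have hc : ∀ k, c k ∈ A (2 * d + (e + D)) := by
        intro k
        refine hA.sub ?_ ?_
        · refine hA.mono (by omega : d + (e + D) + d ≤ _) (hA.mul (hA.add ?_ ?_) (ha 0))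
          · exact hA.mono (by omega) (hA.der (ha (k + 1)))
          · exact hA.smul (hA.mul (ha (k + 1)) (hA.der hg)) _
        · exact hA.mono (by omega) (hA.mul (ha (k + 1)) (hA.der (ha 0)))
      refine (count_step (f := fun t => ∑ k ∈ Finset.range (n + 1), a k t * Real.exp (g t) ^ k)
        (b := a 0) (g := fun t => ∑ k ∈ Finset.range n, c k t * Real.exp (g t) ^ k)
        (m := W d) (k := Zc (e + D) W n (2 * d + (e + D)))
        (ent_sum (hA.ent hg).exp (fun k => hA.ent (ha k)) (n + 1)) (hA.ent (ha 0)) h0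
        (hA.zeros (ha 0) hz) ?_ (ih _ c hc)).trans ?_
      · intro t
        have hkey : deriv (fun t => ∑ k ∈ Finset.range (n + 1), a k t * Real.exp (g t) ^ k) t *
            a 0 t - (∑ k ∈ Finset.range (n + 1), a k t * Real.exp (g t) ^ k) * deriv (a 0) t =
            Real.exp (g t) * ∑ k ∈ Finset.range n, c k t * Real.exp (g t) ^ k := by
          rw [(hd t).deriv, Finset.sum_range_succ', Finset.sum_range_succ']
          simp only [Nat.cast_zero, zero_mul, mul_zero, add_zero, pow_zero, mul_one]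
          rw [add_mul, add_mul, Finset.sum_mul, Finset.sum_mul]
          have h1 : ∀ u v w z : ℝ, u + w * z - (v + z * w) = u - v := by
            intro u v w z
            ring
          rw [h1, ← Finset.sum_sub_distrib, Finset.mul_sum]
          refine Finset.sum_congr rfl fun k _ => ?_
          simp only [c, Pi.sub_apply, Pi.mul_apply, Pi.add_apply,
            Nat.add_sub_cancel, Nat.cast_add, Nat.cast_one]
          ring
        rw [hkey, mul_eq_zero, or_iff_right (hexp t)]
      · exact_mod_cast (Nat.le_add_left _ _)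

theorem count_prim (hA : QGood A D W) {e : ℕ} {F : ℝ → ℝ} (hF : Differentiable ℝ F)
    (hF' : deriv F ∈ A e) (n : ℕ) :
    ∀ (d : ℕ) (a : ℕ → ℝ → ℝ), (∀ k, a k ∈ A d) →
      (fun t => ∑ k ∈ Finset.range n, a k t * F t ^ k) ≠ 0 →
      {t | ∑ k ∈ Finset.range n, a k t * F t ^ k = 0}.encard ≤ Zc (e + D) W n d := by
  induction n with
  | zero =>
    intro d a _ h0
    exfalso
    apply h0
    funext t
    simp
  | succ n ih =>
    intro d a ha h0
    by_cases hz : a n = 0
    · have hiff : ∀ t, ∑ k ∈ Finset.range (n + 1), a k t * F t ^ k =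
          ∑ k ∈ Finset.range n, a k t * F t ^ k := by
        intro t
        rw [Finset.sum_range_succ, hz, Pi.zero_apply, zero_mul, add_zero]
      have h1 : {t | ∑ k ∈ Finset.range (n + 1), a k t * F t ^ k = 0} =
          {t | ∑ k ∈ Finset.range n, a k t * F t ^ k = 0} := by
        ext t
        rw [Set.mem_ofPred_eq, Set.mem_ofPred_eq, hiff]
      rw [h1]
      refine (ih d a ha fun h2 => h0 ?_).trans ?_
      · funext t
        rw [hiff]
        exact congrFun h2 t
      · exact_mod_cast (Nat.le_add_right _ _)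
    · have hy : ∀ t, HasDerivAt F (deriv F t) t := fun t => (hF t).hasDerivAt
      have hd : ∀ t, HasDerivAt (fun t => ∑ k ∈ Finset.range (n + 1), a k t * F t ^ k) _ t :=
        fun t => hasDeriv_sum hA hy ha (n + 1) t
      let c : ℕ → ℝ → ℝ := fun k => deriv (a k) * a n - a k * deriv (a n) +
        (fun _ => (k + 1 : ℝ)) * (a (k + 1) * deriv F * a n)
      have hc : ∀ k, c k ∈ A (2 * d + (e + D)) := by
        intro k
        refine hA.add (hA.sub ?_ ?_) ?_
        · exact hA.mono (by omega) (hA.mul (hA.der (ha k)) (ha n))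
        · exact hA.mono (by omega) (hA.mul (ha k) (hA.der (ha n)))
        · exact hA.smul (hA.mono (by omega) (hA.mul (hA.mul (ha (k + 1)) hF') (ha n))) _
      refine (count_step (f := fun t => ∑ k ∈ Finset.range (n + 1), a k t * F t ^ k)
        (b := a n) (g := fun t => ∑ k ∈ Finset.range n, c k t * F t ^ k)
        (m := W d) (k := Zc (e + D) W n (2 * d + (e + D)))
        (ent_sum (Ent.prim hF (hA.ent hF')) (fun k => hA.ent (ha k)) (n + 1)) (hA.ent (ha n)) h0
        (hA.zeros (ha n) hz) ?_ (ih _ c hc)).trans ?_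
      · intro t
        have hkey : deriv (fun t => ∑ k ∈ Finset.range (n + 1), a k t * F t ^ k) t *
            a n t - (∑ k ∈ Finset.range (n + 1), a k t * F t ^ k) * deriv (a n) t =
            ∑ k ∈ Finset.range n, c k t * F t ^ k := by
          rw [(hd t).deriv, Finset.sum_add_distrib,
            Finset.sum_range_succ (fun k => deriv (a k) t * F t ^ k),
            Finset.sum_range_succ' (fun k => a k t * ((k : ℕ) * F t ^ (k - 1) * deriv F t)),
            Finset.sum_range_succ (fun k => a k t * F t ^ k)]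
          simp only [Nat.cast_zero, zero_mul, mul_zero, add_zero]
          have h1 : ∀ u v w z q b d : ℝ,
              (u + d * q + v) * b - (w + b * q) * d = u * b + v * b - w * d := by
            intro u v w z q b d
            ring
          rw [h1 _ _ _ 0, Finset.sum_mul, Finset.sum_mul, Finset.sum_mul, ← Finset.sum_add_distrib,
            ← Finset.sum_sub_distrib]
          refine Finset.sum_congr rfl fun k _ => ?_
          simp only [c, Pi.sub_apply, Pi.mul_apply, Pi.add_apply,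
            Nat.add_sub_cancel, Nat.cast_add, Nat.cast_one]
          ring
        rw [hkey]
      · exact_mod_cast (Nat.le_add_left _ _)

/-- the ring generated by `A` and `y` -/
def QExt (A : ℕ → Set (ℝ → ℝ)) (y : ℝ → ℝ) (d : ℕ) : Set (ℝ → ℝ) :=
  {f | ∃ a : ℕ → ℝ → ℝ, (∀ k, a k ∈ A d) ∧
    f = fun t => ∑ k ∈ Finset.range (d + 1), a k t * y t ^ k}

theorem mem_qext (hA : QGood A D W) {y f : ℝ → ℝ} {d : ℕ} : f ∈ QExt A y d ↔
    ∃ p : Polynomial (ℝ → ℝ), p.natDegree ≤ d ∧ (∀ k, p.coeff k ∈ A d) ∧ p.eval y = f := by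
  classical
  constructor
  · rintro ⟨a, ha, rfl⟩
    refine ⟨∑ k ∈ Finset.range (d + 1), Polynomial.C (a k) * Polynomial.X ^ k, ?_, ?_, ?_⟩
    · refine Polynomial.natDegree_sum_le_of_forall_le _ _ fun k hk => ?_
      exact (Polynomial.natDegree_C_mul_X_pow_le _ _).trans
        (Nat.lt_succ_iff.1 (Finset.mem_range.1 hk))
    · intro k
      rw [Polynomial.finsetSum_coeff]
      refine hA.sum _ fun i _ => ?_
      rw [Polynomial.coeff_C_mul_X_pow]
      split_ifs
      · exact ha i
      · exact hA.zero d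
    · rw [Polynomial.eval_finsetSum]
      funext t
      rw [Finset.sum_apply]
      refine Finset.sum_congr rfl fun k _ => ?_
      rw [Polynomial.eval_mul, Polynomial.eval_C, Polynomial.eval_pow, Polynomial.eval_X]
      rfl
  · rintro ⟨p, hp, hc, rfl⟩
    refine ⟨fun k => p.coeff k, hc, ?_⟩
    rw [Polynomial.eval_eq_sum_range' (Nat.lt_succ_of_le hp)]
    funext t
    rw [Finset.sum_apply]
    rfl

theorem qext_mono (hA : QGood A D W) {y f : ℝ → ℝ} {d e : ℕ} (hde : d ≤ e) (hf : f ∈ QExt A y d) :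
    f ∈ QExt A y e := by
  rw [mem_qext hA] at hf ⊢
  obtain ⟨p, h1, h2, h3⟩ := hf
  exact ⟨p, h1.trans hde, fun k => hA.mono hde (h2 k), h3⟩

theorem qext_le (hA : QGood A D W) {y f : ℝ → ℝ} {d : ℕ} (hf : f ∈ A d) : f ∈ QExt A y d := by
  rw [mem_qext hA]
  refine ⟨Polynomial.C f, by rw [Polynomial.natDegree_C]; exact Nat.zero_le d, fun k => ?_,
    Polynomial.eval_C⟩
  rw [Polynomial.coeff_C]
  split_ifs
  · exact hf
  · exact hA.zero d

theorem qext_self (hA : QGood A D W) (y : ℝ → ℝ) : y ∈ QExt A y 1 := by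
  rw [mem_qext hA]
  refine ⟨Polynomial.X, Polynomial.natDegree_X_le, fun k => ?_, Polynomial.eval_X⟩
  rw [Polynomial.coeff_X]
  split_ifs
  · exact hA.mono zero_le_one (hA.const 1)
  · exact hA.zero 1

theorem qext_add (hA : QGood A D W) {y f g : ℝ → ℝ} {d : ℕ} (hf : f ∈ QExt A y d)
    (hg : g ∈ QExt A y d) : f + g ∈ QExt A y d := by
  rw [mem_qext hA] at hf hg ⊢
  obtain ⟨p, h1, h2, rfl⟩ := hf
  obtain ⟨q, h1', h2', rfl⟩ := hg
  refine ⟨p + q, (Polynomial.natDegree_add_le _ _).trans (max_le h1 h1'), fun k => ?_,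
    Polynomial.eval_add⟩
  rw [Polynomial.coeff_add]
  exact hA.add (h2 k) (h2' k)

theorem qext_mul (hA : QGood A D W) {y f g : ℝ → ℝ} {d e : ℕ} (hf : f ∈ QExt A y d)
    (hg : g ∈ QExt A y e) : f * g ∈ QExt A y (d + e) := by
  classical
  rw [mem_qext hA] at hf hg ⊢
  obtain ⟨p, h1, h2, rfl⟩ := hf
  obtain ⟨q, h1', h2', rfl⟩ := hg
  refine ⟨p * q, (Polynomial.natDegree_mul_le).trans (add_le_add h1 h1'), fun k => ?_,
    Polynomial.eval_mul⟩
  rw [Polynomial.coeff_mul]
  exact hA.sum _ fun i _ => hA.mul (h2 _) (h2' _)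

theorem qgood_ext (hA : QGood A D W) {y : ℝ → ℝ} (hy : Ent y) {D' : ℕ} (hD : D ≤ D')
    (hy' : deriv y ∈ QExt A y D') {W' : ℕ → ℕ}
    (hz : ∀ (d : ℕ) (a : ℕ → ℝ → ℝ), (∀ k, a k ∈ A d) →
      (fun t => ∑ k ∈ Finset.range (d + 1), a k t * y t ^ k) ≠ 0 →
      {t | ∑ k ∈ Finset.range (d + 1), a k t * y t ^ k = 0}.encard ≤ W' d) :
    QGood (QExt A y) D' W' where
  mono := fun hde hf => qext_mono hA hde hf
  const := fun c => qext_le hA (hA.const c)
  add := fun hf hg => qext_add hA hf hg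
  mul := fun hf hg => qext_mul hA hf hg
  ent := by
    rintro d _ ⟨a, ha, rfl⟩
    exact ent_sum hy (fun k => hA.ent (ha k)) _
  der := by
    rintro d _ ⟨a, ha, rfl⟩
    have h1 : ∀ t, deriv (fun t => ∑ k ∈ Finset.range (d + 1), a k t * y t ^ k) t =
        ∑ k ∈ Finset.range (d + 1), deriv (a k) t * y t ^ k +
          (∑ k ∈ Finset.range (d + 1), ((fun _ => (k + 1 : ℝ)) *
            (if k < d then a (k + 1) else 0) : ℝ → ℝ) t * y t ^ k) * deriv y t := by
      intro t
      rw [(hasDeriv_sum hA (fun t => (hy.1 t).hasDerivAt) ha (d + 1) t).deriv,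
        Finset.sum_add_distrib]
      congr 1
      rw [Finset.sum_range_succ', Finset.sum_range_succ, add_mul, Finset.sum_mul]
      have e1 : a 0 t * (((0 : ℕ) : ℝ) * y t ^ (0 - 1) * deriv y t) = 0 := by
        rw [Nat.cast_zero]
        ring
      have e2 : (((fun _ => ((d : ℝ) + 1)) * (if d < d then a (d + 1) else 0) : ℝ → ℝ) t *
          y t ^ d) * deriv y t = 0 := by
        rw [if_neg (lt_irrefl d)]
        simp
      rw [e1, e2, add_zero, add_zero]
      refine Finset.sum_congr rfl fun k hk => ?_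
      rw [if_pos (Finset.mem_range.1 hk)]
      simp only [Pi.mul_apply, Nat.add_sub_cancel, Nat.cast_add, Nat.cast_one]
      ring
    have h2 : deriv (fun t => ∑ k ∈ Finset.range (d + 1), a k t * y t ^ k) =
        (fun t => ∑ k ∈ Finset.range (d + 1), deriv (a k) t * y t ^ k) +
          (fun t => ∑ k ∈ Finset.range (d + 1), ((fun _ => (k + 1 : ℝ)) *
            (if k < d then a (k + 1) else 0) : ℝ → ℝ) t * y t ^ k) * deriv y := by
      funext t
      exact h1 t
    rw [h2]
    refine qext_add hA ?_ (qext_mul hA ⟨_, fun k => hA.smul ?_ _, rfl⟩ hy')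
    · rw [mem_qext hA]
      have h3 : (fun t => ∑ k ∈ Finset.range (d + 1), deriv (a k) t * y t ^ k) ∈
          QExt (fun _ => A (d + D)) y d := ⟨fun k => deriv (a k), fun k => hA.der (ha k), rfl⟩
      have h4 : ∃ p : Polynomial (ℝ → ℝ), p.natDegree ≤ d ∧ (∀ k, p.coeff k ∈ A (d + D)) ∧
          p.eval y = fun t => ∑ k ∈ Finset.range (d + 1), deriv (a k) t * y t ^ k := by
        classical
        refine ⟨∑ k ∈ Finset.range (d + 1), Polynomial.C (deriv (a k)) * Polynomial.X ^ k, ?_, ?_, ?_⟩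
        · refine Polynomial.natDegree_sum_le_of_forall_le _ _ fun k hk => ?_
          exact (Polynomial.natDegree_C_mul_X_pow_le _ _).trans
            (Nat.lt_succ_iff.1 (Finset.mem_range.1 hk))
        · intro k
          rw [Polynomial.finsetSum_coeff]
          refine hA.sum _ fun i _ => ?_
          rw [Polynomial.coeff_C_mul_X_pow]
          split_ifs
          · exact hA.der (ha i)
          · exact hA.zero _
        · rw [Polynomial.eval_finsetSum]
          funext t
          rw [Finset.sum_apply]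
          refine Finset.sum_congr rfl fun k _ => ?_
          rw [Polynomial.eval_mul, Polynomial.eval_C, Polynomial.eval_pow, Polynomial.eval_X]
          rfl
      obtain ⟨p, hp1, hp2, hp3⟩ := h4
      exact ⟨p, by omega, fun k => hA.mono (by omega) (hp2 k), hp3⟩
    · split_ifs
      · exact ha _
      · exact hA.zero d
  zeros := by
    rintro d _ ⟨a, ha, rfl⟩ h0
    exact hz d a ha h0

end

/-! ### the bound -/

/-- **One function.** -/
theorem exists_bound (n : ℕ) : ∀ (D : ℕ) (W : ℕ → ℕ), ∃ (D' : ℕ) (W' : ℕ → ℕ) (e' : ℕ),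
    ∀ A : ℕ → Set (ℝ → ℝ), QGood A D W → ∀ f : ℝ → ℝ, RExp n f →
      ∃ A' : ℕ → Set (ℝ → ℝ), QGood A' D' W' ∧ (∀ d, A d ⊆ A' d) ∧ f ∈ A' e' := by
  induction n with
  | zero =>
    intro D W
    refine ⟨D, W, 0, fun A hA f hf => ?_⟩
    cases hf with
    | const _ c => exact ⟨A, hA, fun _ => le_rfl, hA.const c⟩
  | succ n ih =>
    intro D W
    obtain ⟨D1, W1, e1, h1⟩ := ih D W
    obtain ⟨D2, W2, e2, h2⟩ := ih D1 W1
    refine ⟨D + D2 + (e1 + D1 + 1), fun d => W d + W2 d + Zc (e1 + D1) W1 (d + 1) d,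
      e1 + e2 + 1, fun A hA f hf => ?_⟩
    generalize hn : n + 1 = m at hf
    cases hf with
    | const n' c =>
      exact ⟨A, hA.weaken (by omega) (fun d => by omega), fun _ => le_rfl,
        hA.mono (Nat.zero_le _) (hA.const c)⟩
    | @add n' f g hf hg =>
      obtain rfl : n = n' := by omega
      obtain ⟨A1, hA1, hle1, hf1⟩ := h1 A hA f hf
      obtain ⟨A2, hA2, hle2, hg1⟩ := h2 A1 hA1 g hg
      refine ⟨A2, hA2.weaken (by omega) (fun d => by omega), fun d => (hle1 d).trans (hle2 d), ?_⟩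
      exact hA2.add (hA2.mono (by omega) (hle2 _ hf1)) (hA2.mono (by omega) hg1)
    | @mul n' f g hf hg =>
      obtain rfl : n = n' := by omega
      obtain ⟨A1, hA1, hle1, hf1⟩ := h1 A hA f hf
      obtain ⟨A2, hA2, hle2, hg1⟩ := h2 A1 hA1 g hg
      refine ⟨A2, hA2.weaken (by omega) (fun d => by omega), fun d => (hle1 d).trans (hle2 d), ?_⟩
      exact hA2.mono (by omega) (hA2.mul (hle2 _ hf1) hg1)
    | @exp n' g hg =>
      obtain rfl : n = n' := by omega
      obtain ⟨A1, hA1, hle1, hg1⟩ := h1 A hA g hg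
      have hd : ∀ t, HasDerivAt (fun t => Real.exp (g t)) (Real.exp (g t) * deriv g t) t :=
        fun t => (hA1.diff hg1 t).hasDerivAt.exp
      have h3 : deriv (fun t => Real.exp (g t)) = (fun t => Real.exp (g t)) * deriv g := by
        funext t
        exact (hd t).deriv
      have h4 : QGood (QExt A1 fun t => Real.exp (g t)) (e1 + D1 + 1)
          (fun d => Zc (e1 + D1) W1 (d + 1) d) := by
        refine qgood_ext hA1 (hA1.ent hg1).exp (by omega) ?_
          (fun d a ha h0 => count_exp hA1 hg1 (d + 1) d a ha h0)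
        rw [h3]
        exact qext_mono hA1 (by omega)
          (qext_mul hA1 (qext_self hA1 _) (qext_le hA1 (hA1.der hg1)))
      exact ⟨_, h4.weaken (by omega) (fun d => by omega),
        fun d f hf => qext_le hA1 (hle1 d hf), qext_mono hA1 (by omega) (qext_self hA1 _)⟩
    | @prim n' F hF hF' =>
      obtain rfl : n = n' := by omega
      obtain ⟨A1, hA1, hle1, hg1⟩ := h1 A hA _ hF'
      have h4 : QGood (QExt A1 f) (e1 + D1 + 1)
          (fun d => Zc (e1 + D1) W1 (d + 1) d) :=
        qgood_ext hA1 (Ent.prim hF (hA1.ent hg1)) (by omega)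
          (qext_mono hA1 (by omega) (qext_le hA1 hg1))
          (fun d a ha h0 => count_prim hA1 hF hg1 (d + 1) d a ha h0)
      exact ⟨_, h4.weaken (by omega) (fun d => by omega),
        fun d f hf => qext_le hA1 (hle1 d hf), qext_mono hA1 (by omega) (qext_self hA1 _)⟩

/-- **Finitely many functions.** -/
theorem exists_bound_fin (n m : ℕ) : ∃ (D' : ℕ) (W' : ℕ → ℕ) (e' : ℕ),
    ∀ f : Fin m → ℝ → ℝ, (∀ i, RExp n (f i)) →
      ∃ A' : ℕ → Set (ℝ → ℝ), QGood A' D' W' ∧ ∀ i, f i ∈ A' e' := by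
  induction m with
  | zero => exact ⟨0, fun _ => 0, 0, fun f _ => ⟨_, qgood_base, fun i => i.elim0⟩⟩
  | succ m ih =>
    obtain ⟨D, W, e, h⟩ := ih
    obtain ⟨D1, W1, e1, h1⟩ := exists_bound n D W
    refine ⟨D1, W1, e + e1, fun f hf => ?_⟩
    obtain ⟨A, hA, hfA⟩ := h (fun i => f i.castSucc) (fun i => hf _)
    obtain ⟨A', hA', hle, hf'⟩ := h1 A hA (f (Fin.last m)) (hf _)
    refine ⟨A', hA', fun i => ?_⟩
    refine Fin.lastCases ?_ (fun i => ?_) i
    · exact hA'.mono (by omega) hf'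
    · exact hA'.mono (by omega) (hle _ (hfA i))

end Pool.Agent.Helper435.RT
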