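import Pool.Agent.Helper435.RT.Form
import Pool.Agent.TH600.LE.Fin
import Pool.Agent.TH600.LC.Lang

/-!
# Entire curves and formulas in one real variable
-/

set_option autoImplicit false

namespace Pool.Agent.Helper435.RT

open Filter Topology MvPolynomial
open scoped LinearAlgebra.Projectivization
open Pool.Agent.TH600.LE (ExpPrim exists_good_fin Good.basis expData unirational_closure
  rat_of_closure)
open Pool.Agent.TH600.LM (mero_of_diff)
open Pool.Agent.TH600.LC (forms forms_homog isPtP_forms)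
open Pool.Agent.TH143.EL (Rep HolMap InV inV_iff inV_of_punct rep_rep rep_iff rep_eq codis_rep
  codis_ev MK cl)
open Pool.Agent.TH143.HE (IsPtP RatCurvesIn NonConst NonConstC)

/-! ### entire extensions -/

theorem RExp.exists_ext {n : ℕ} {u : ℝ → ℝ} (h : RExp n u) :
    ∃ U : ℂ → ℂ, ExpPrim U ∧ ∀ t : ℝ, U t = u t := by
  induction h with
  | const _ c => exact ⟨fun _ => c, ExpPrim.const _, fun _ => rfl⟩
  | add _ _ h1 h2 =>
    obtain ⟨U, hU, hU'⟩ := h1
    obtain ⟨V, hV, hV'⟩ := h2
    refine ⟨_, hU.add hV, fun t => ?_⟩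
    beta_reduce
    rw [hU', hV', Complex.ofReal_add]
  | mul _ _ h1 h2 =>
    obtain ⟨U, hU, hU'⟩ := h1
    obtain ⟨V, hV, hV'⟩ := h2
    refine ⟨_, hU.mul hV, fun t => ?_⟩
    beta_reduce
    rw [hU', hV', Complex.ofReal_mul]
  | exp _ h1 =>
    obtain ⟨U, hU, hU'⟩ := h1
    refine ⟨_, hU.exp, fun t => ?_⟩
    beta_reduce
    rw [hU', Complex.ofReal_exp]
  | prim hF _ h1 =>
    obtain ⟨V, hV, hV'⟩ := h1
    obtain ⟨W, hW, hW'⟩ := exists_primitive hV.diff hF hV'
    refine ⟨W, ExpPrim.prim (fun z => (hW z).differentiableAt) ?_, hW'⟩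
    have h2 : deriv W = V := funext fun z => (hW z).deriv
    rw [h2]
    exact hV

theorem Formula.exists_ext {n : ℕ} {w : ℝ → ℂ} (h : Formula n w) :
    ∃ W : ℂ → ℂ, ExpPrim W ∧ ∀ t : ℝ, W t = w t := by
  obtain ⟨u, v, hu, hv, h1⟩ := h
  obtain ⟨U, hU, hU'⟩ := hu.exists_ext
  obtain ⟨V, hV, hV'⟩ := hv.exists_ext
  refine ⟨_, hU.add (hV.mul (ExpPrim.const Complex.I)), fun t => ?_⟩
  rw [hU', hV', h1]

/-! ### curves -/

variable {N : ℕ} {R : Type} [CommRing R]

/-- All nonconstant entire curves in `X`, with homogeneous coordinates (perhaps with common zeros)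
which are obtained from the constants by additions, multiplications, exponentials and integrations,
lie in `Z`. -/
def ExpCurvesIn (φ : R →+* ℂ) (I I' : Ideal (MvPolynomial (Fin (N + 1)) R)) : Prop :=
  ∀ f : ℂ → Fin (N + 1) → ℂ, (∀ j, ExpPrim fun z => f z j) → (∀ z, IsPtP φ I (f z)) →
    NonConstC f → ∀ z, IsPtP φ I' (f z)

theorem span_zero {S : Set (MvPolynomial (Fin (N + 1)) ℂ)} {x : Fin (N + 1) → ℂ}
    (h : ∀ G ∈ S, eval x G = 0) {G : MvPolynomial (Fin (N + 1)) ℂ} (hG : G ∈ Ideal.span S) :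
    eval x G = 0 := by
  have h1 : Ideal.span S ≤ RingHom.ker (eval x) := Ideal.span_le.2 fun G hG => h G hG
  exact h1 hG

theorem ratCurves_span {φ : R →+* ℂ} {I I' : Ideal (MvPolynomial (Fin (N + 1)) R)}
    (h : RatCurvesIn φ I I') :
    RatCurvesIn (RingHom.id ℂ) (Ideal.span (forms φ I)) (Ideal.span (forms φ I')) := by
  intro p hp hnc u
  have h1 := h p (fun u => isPtP_forms.2 fun G hG =>
    hp u G (Ideal.subset_span hG) (forms_homog G hG)) hnc u
  intro G hG _
  exact span_zero (isPtP_forms.1 h1) hG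

theorem eval_diff {f : ℂ → Fin (N + 1) → ℂ} (hf : ∀ j, Differentiable ℂ fun z => f z j)
    (G : MvPolynomial (Fin (N + 1)) ℂ) : Differentiable ℂ fun z => eval (f z) G := by
  induction G using MvPolynomial.induction_on with
  | C a => simpa only [eval_C] using differentiable_const a
  | add p q hp hq => simpa only [map_add] using hp.fun_add hq
  | mul_X p j hp => simpa only [map_mul, eval_X] using hp.fun_mul (hf j)

theorem exp_of_rat {φ : R →+* ℂ} {I I' : Ideal (MvPolynomial (Fin (N + 1)) R)}
    (h : RatCurvesIn φ I I') : ExpCurvesIn φ I I' := by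
  intro f hf hX hnc
  have hd : ∀ j, Differentiable ℂ fun z => f z j := fun j => (hf j).diff
  have hm : ∀ j, Meromorphic fun z => f z j := fun j => mero_of_diff (hd j)
  obtain ⟨z1, w1, j1, k1, hnc1⟩ := hnc
  have hne : ∃ j, ¬ ∀ᶠ z in codiscrete ℂ, f z j = 0 := by
    by_contra hcon
    push Not at hcon
    have h0 : ∀ j z, f z j = 0 := by
      intro j
      have h1 : ∃ᶠ z in 𝓝[≠] (0 : ℂ), f z j = 0 := (codis_ev (hcon j) 0).frequently
      have h3 : AnalyticOnNhd ℂ (fun z => f z j) Set.univ :=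
        (hd j).differentiableOn.analyticOnNhd isOpen_univ
      have h4 : AnalyticOnNhd ℂ (fun _ : ℂ => (0 : ℂ)) Set.univ := fun _ _ => analyticAt_const
      exact fun z => congrFun (h3.eq_of_frequently_eq h4 h1) z
    apply hnc1
    rw [h0 j1 z1, h0 k1 z1, zero_mul, zero_mul]
  obtain ⟨g, hg, hr⟩ := codis_rep hm hne
  obtain ⟨A, hA, hAy⟩ := exists_good_fin hf
  obtain ⟨σ', hσ', s, hs, -, hle⟩ := Good.basis expData hA
  obtain ⟨M, ⟨e⟩⟩ := Finite.exists_equiv_fin σ'
  have hrange : Set.range (fun i => s (e.symm i)) = Set.range s := e.symm.surjective.range_comp s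
  obtain ⟨F, hF0, hF⟩ := unirational_closure hg hm hr (x := fun i => s (e.symm i))
    (hs.comp _ e.symm.injective) (fun j => by
      rw [hrange]
      exact hle (hAy j))
  have hgI : ∀ z, InV (Ideal.span (forms φ I)) (g z) := by
    intro z
    apply inV_of_punct hg
    filter_upwards [codis_ev hr z] with w hw
    rw [inV_iff hw]
    intro G hG _
    exact span_zero (isPtP_forms.1 (hX w)) hG
  have hgnc : ∃ z w, g z ≠ g w := by
    by_contra hcon
    push Not at hcon
    apply hnc1
    -- all values are proportional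
    obtain ⟨v, hv⟩ : ∃ v, Rep (g v) (f v) := (codis_ev hr 0).exists
    have hprop : ∀ z j k, f v j * f z k = f v k * f z j := by
      intro z j k
      have h1 : ∀ᶠ z in 𝓝[≠] z, f v j * f z k - f v k * f z j = 0 := by
        filter_upwards [codis_ev hr z] with w hw
        rw [hcon w v, rep_iff hv] at hw
        rw [hw.2 j k, sub_self]
      have h2 : Differentiable ℂ fun z => f v j * f z k - f v k * f z j :=
        ((hd k).const_mul _).sub ((hd j).const_mul _)
      have h3 : Tendsto (fun z => f v j * f z k - f v k * f z j) (𝓝[≠] z)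
          (𝓝 (f v j * f z k - f v k * f z j)) :=
        (h2.continuous.tendsto z).mono_left nhdsWithin_le_nhds
      have h4 : Tendsto (fun z => f v j * f z k - f v k * f z j) (𝓝[≠] z) (𝓝 0) :=
        tendsto_const_nhds.congr' (h1.mono fun w hw => hw.symm)
      exact sub_eq_zero.1 (tendsto_nhds_unique h3 h4)
    obtain ⟨l, hl⟩ := Function.ne_iff.1 hv.1
    have hl' : f v l ≠ 0 := hl
    apply mul_left_cancel₀ (mul_ne_zero hl' hl')
    linear_combination (f v l * f w1 k1) * hprop z1 l j1 + (f v j1 * f z1 l) * hprop w1 l k1 -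
      (f v l * f w1 j1) * hprop z1 l k1 - (f v k1 * f z1 l) * hprop w1 l j1
  have h5 := rat_of_closure (ratCurves_span h) hF0 hF hgI hgnc
  intro z
  rw [isPtP_forms]
  intro G hG
  have h6 : ∀ᶠ w in 𝓝[≠] z, eval (f w) G = 0 := by
    filter_upwards [codis_ev hr z] with w hw
    have h7 := h5 w
    rw [inV_iff hw] at h7
    exact h7 G (Ideal.subset_span hG) (forms_homog G hG)
  have h3 : Tendsto (fun z => eval (f z) G) (𝓝[≠] z) (𝓝 (eval (f z) G)) :=
    ((eval_diff hd G).continuous.tendsto z).mono_left nhdsWithin_le_nhds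
  have h4 : Tendsto (fun z => eval (f z) G) (𝓝[≠] z) (𝓝 0) :=
    tendsto_const_nhds.congr' (h6.mono fun w hw => hw.symm)
  exact tendsto_nhds_unique h3 h4

theorem expPrim_id : ExpPrim fun z => z := by
  refine ExpPrim.prim differentiable_id ?_
  have h1 : deriv (fun z : ℂ => z) = fun _ => 1 := by
    funext z
    exact deriv_id z
  rw [h1]
  exact ExpPrim.const 1

theorem expPrim_poly (p : Polynomial ℂ) : ExpPrim fun z => p.eval z := by
  induction p using Polynomial.induction_on' with
  | add p q hp hq => simpa only [Polynomial.eval_add] using hp.add hq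
  | monomial n a =>
    have h1 : ∀ n : ℕ, ExpPrim fun z => z ^ n := by
      intro n
      induction n with
      | zero => simpa only [pow_zero] using ExpPrim.const 1
      | succ n ih => simpa only [pow_succ] using ih.mul expPrim_id
    simpa only [Polynomial.eval_monomial] using (ExpPrim.const a).mul (h1 n)

theorem rat_of_exp {φ : R →+* ℂ} {I I' : Ideal (MvPolynomial (Fin (N + 1)) R)}
    (h : ExpCurvesIn φ I I') : RatCurvesIn φ I I' := by
  intro p hp hnc u
  obtain ⟨j, k, u1, v1, hne⟩ := hnc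
  exact h (fun z j => (p j).eval z) (fun j => expPrim_poly (p j)) hp ⟨u1, v1, j, k, hne⟩ u

/-! ### the definitions -/

theorem cexp_iff {f : ℂ → ℂ} : CExp f ↔ ExpPrim f := by
  constructor
  · intro h
    induction h with
    | const c => exact ExpPrim.const c
    | add _ _ h1 h2 => exact h1.add h2
    | mul _ _ h1 h2 => exact h1.mul h2
    | exp _ h1 => exact h1.exp
    | prim hF _ h1 => exact ExpPrim.prim hF h1
  · intro h
    induction h with
    | const c => exact CExp.const c
    | add _ _ h1 h2 => exact h1.add h2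
    | mul _ _ h1 h2 => exact h1.mul h2
    | exp _ h1 => exact h1.exp
    | prim hF _ h1 => exact CExp.prim hF h1

theorem rationalCurves_iff {K : Type} [Field K] {σ : K →+* ℂ}
    {I I' : Ideal (MvPolynomial (Fin (N + 1)) K)} :
    RationalCurves σ I I' ↔ RatCurvesIn σ I I' := by
  constructor
  · rintro h p hp ⟨j, k, u, v, hne⟩
    exact h p hp ⟨u, v, j, k, hne⟩
  · rintro h p hp ⟨u, v, j, k, hne⟩
    exact h p hp ⟨j, k, u, v, hne⟩

theorem expCurves_iff {K : Type} [Field K] {σ : K →+* ℂ}
    {I I' : Ideal (MvPolynomial (Fin (N + 1)) K)} :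
    ExpCurves σ I I' ↔ ExpCurvesIn σ I I' := by
  constructor
  · intro h f hf hX hnc
    exact h f (fun j => cexp_iff.2 (hf j)) hX hnc
  · intro h f hf hX hnc
    exact h f (fun j => cexp_iff.1 (hf j)) hX hnc

end Pool.Agent.Helper435.RT
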