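import Pool.Agent.Helper435.RT.Def

/-!
# Formulas in one real variable and integral points of affine varieties: the definitions
-/

set_option autoImplicit false

namespace Pool.Agent.Helper435.RT

open MvPolynomial IsDedekindDomain
open scoped NumberField

variable {K : Type} [Field K] {ι κ : Type} {n : ℕ}

/-! ### complex points and curves -/

/-- The complex point `x` is a common zero of the polynomials `F`, with coefficients in the ring of
integers of `K`, after the embedding `σ` of `K`. -/
def CPt (σ : K →+* ℂ) (F : ι → MvPolynomial (Fin n) (𝓞 K)) (x : Fin n → ℂ) : Prop :=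
  ∀ i, eval₂ (σ.comp (algebraMap (𝓞 K) K)) x (F i) = 0

/-- Condition (i): all nonconstant entire curves in `V` lie in `V'`. Here, and in the definitions
below, `V` and `V'` are given by the polynomials `F` and `G`. -/
def CondI (σ : K →+* ℂ) (F : ι → MvPolynomial (Fin n) (𝓞 K))
    (G : κ → MvPolynomial (Fin n) (𝓞 K)) : Prop :=
  ∀ f : ℂ → Fin n → ℂ, Differentiable ℂ f → (∀ z, CPt σ F (f z)) → (∃ z w, f z ≠ f w) →
    ∀ z, CPt σ G (f z)

/-- Condition (i) for the entire curves with coordinates which are obtained from the constants by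
additions, multiplications, exponentials and integrations. -/
def CondIExp (σ : K →+* ℂ) (F : ι → MvPolynomial (Fin n) (𝓞 K))
    (G : κ → MvPolynomial (Fin n) (𝓞 K)) : Prop :=
  ∀ f : ℂ → Fin n → ℂ, (∀ j, CExp fun z => f z j) → (∀ z, CPt σ F (f z)) → (∃ z w, f z ≠ f w) →
    ∀ z, CPt σ G (f z)

/-- All nonconstant maps from the punctured line to `V`, with coordinates which are Laurent
polynomials, lie in `V'`. -/
def GmCurves (σ : K →+* ℂ) (F : ι → MvPolynomial (Fin n) (𝓞 K))
    (G : κ → MvPolynomial (Fin n) (𝓞 K)) : Prop :=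
  ∀ v : ℂ → Fin n → ℂ,
    (∀ j, ∃ (M : ℕ) (Q : Polynomial ℂ), ∀ t, t ≠ 0 → v t j * t ^ M = Q.eval t) →
    (∀ t, t ≠ 0 → CPt σ F (v t)) → (∃ t s, t ≠ 0 ∧ s ≠ 0 ∧ v t ≠ v s) →
    ∀ t, t ≠ 0 → CPt σ G (v t)

/-! ### points over fields and integral points -/

/-- The points of `V` with coordinates in `L`. -/
def APts (L : Type) [Field L] [Algebra K L] (F : ι → MvPolynomial (Fin n) (𝓞 K)) :
    Set (Fin n → L) :=
  {x | ∀ i, eval₂ ((algebraMap K L).comp (algebraMap (𝓞 K) K)) x (F i) = 0}

/-- The points of `V` with coordinates in the ring of `S`-integers of `L`. -/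
def IPts (L : Type) [Field L] [NumberField L] [Algebra K L] (S : Set (HeightOneSpectrum (𝓞 L)))
    (F : ι → MvPolynomial (Fin n) (𝓞 K)) : Set (Fin n → L) :=
  {x | (∀ j, x j ∈ S.integer L) ∧ x ∈ APts L F}

/-- Condition (ii): the set of `S`-integral points of `V` outside of `V'` is always finite. -/
def CondII (F : ι → MvPolynomial (Fin n) (𝓞 K)) (G : κ → MvPolynomial (Fin n) (𝓞 K)) : Prop :=
  ∀ (L : Type) [Field L] [NumberField L] [Algebra K L] (S : Set (HeightOneSpectrum (𝓞 L))),
    S.Finite → (IPts L S F \ IPts L S G).Finite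

/-- The points with coordinates in `L` which are given by the formulas `f` at a real number. -/
def Given {L : Type} [Field L] (τ : L →+* ℂ) (f : Fin n → ℝ → ℂ) : Set (Fin n → L) :=
  {x | ∃ t : ℝ, ∀ j, τ (x j) = f j t}

/-- Condition (ii) for points which are given by formulas: for all number fields `L` which contain
`K` and all finite sets `S` of places, only finitely many of the `S`-integral points of `V` outside
of `V'` are given by the formulas. -/
def CondIIFormula (F : ι → MvPolynomial (Fin n) (𝓞 K)) (G : κ → MvPolynomial (Fin n) (𝓞 K)) :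
    Prop :=
  ∀ (L : Type) [Field L] [NumberField L] [Algebra K L] (S : Set (HeightOneSpectrum (𝓞 L))),
    S.Finite → ∀ (τ : L →+* ℂ) (m : ℕ) (f : Fin n → ℝ → ℂ), (∀ j, Formula m (f j)) →
    ((IPts L S F \ IPts L S G) ∩ Given τ f).Finite

/-- For all fields `L` which contain `K`, embedded in `ℂ`, and all formulas with at most `m` nested
operations, at most `b` points of `V(L)` outside of `V'` are given by the formulas. -/
def AtMostA (b m : ℕ) (F : ι → MvPolynomial (Fin n) (𝓞 K))
    (G : κ → MvPolynomial (Fin n) (𝓞 K)) : Prop :=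
  ∀ (L : Type) [Field L] [Algebra K L] (τ : L →+* ℂ) (f : Fin n → ℝ → ℂ),
    (∀ j, Formula m (f j)) → ((APts L F \ APts L G) ∩ Given τ f).encard ≤ b

end Pool.Agent.Helper435.RT
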