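import Pool.Agent.Helper435.RT.Curve
import Pool.Agent.Helper435.RT.DefA
import Pool.Agent.TH600.LE.Gm
import Pool.Agent.TH143.HE.Aff
import Pool.Agent.W235.RM.Final

/-!
# Entire curves built by exponentials and integrations in affine varieties
-/

set_option autoImplicit false

namespace Pool.Agent.Helper435.RT

open MvPolynomial
open scoped NumberField
open Pool.Agent.TH600.LE (ExpPrim torus_closure exists_gm zero_of_torus)
open Pool.Agent.TH143.HE (homog homog_homog eval_homog)

section

variable {n : ℕ}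

/-- A polynomial without zeros in the punctured line is a monomial. -/
theorem monomial_of_ne {p : Polynomial ℂ} (hp : ∀ t, t ≠ 0 → p.eval t ≠ 0) :
    ∃ (c : ℂ) (M : ℕ), c ≠ 0 ∧ ∀ t, p.eval t = c * t ^ M := by
  have hp0 : p ≠ 0 := by
    rintro rfl
    exact hp 1 one_ne_zero Polynomial.eval_zero
  obtain ⟨q, hq, hdvd⟩ := Polynomial.exists_eq_pow_rootMultiplicity_mul_and_not_dvd p hp0 0
  have hq0 : ∀ t, q.eval t ≠ 0 := by
    intro t h0
    by_cases ht : t = 0
    · apply hdvd
      rw [Polynomial.dvd_iff_isRoot]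
      rw [ht] at h0
      exact h0
    · apply hp t ht
      rw [hq, Polynomial.eval_mul, h0, mul_zero]
  have hdeg : q.degree = 0 := by
    by_contra hd
    obtain ⟨t, ht⟩ := Complex.exists_root (f := q) (by
      have hq1 : q ≠ 0 := by
        rintro rfl
        exact hq0 1 Polynomial.eval_zero
      rw [Polynomial.degree_eq_natDegree hq1] at hd ⊢
      have h1 : q.natDegree ≠ 0 := fun h => hd (by rw [h]; rfl)
      exact_mod_cast Nat.pos_of_ne_zero h1)
    exact hq0 t ht
  rw [Polynomial.eq_C_of_degree_eq_zero hdeg] at hq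
  refine ⟨q.coeff 0, Polynomial.rootMultiplicity 0 p, ?_, fun t => ?_⟩
  · have h1 := hq0 0
    rwa [← Polynomial.coeff_zero_eq_eval_zero] at h1
  · have h2 := congrArg (Polynomial.eval t) hq
    simp only [Polynomial.eval_mul, Polynomial.eval_pow, Polynomial.eval_sub, Polynomial.eval_X,
      Polynomial.eval_C, sub_zero] at h2
    rw [h2, mul_comm]

/-- The key step over the complex numbers. -/
theorem exists_laurent {f : ℂ → Fin n → ℂ} (hf : ∀ j, CExp fun z => f z j)
    (hnc : ∃ z w, f z ≠ f w) {G : MvPolynomial (Fin n) ℂ} {z0 : ℂ} (hG : eval (f z0) G ≠ 0) :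
    ∃ v : ℂ → Fin n → ℂ,
      (∀ j, ∃ (M : ℕ) (Q : Polynomial ℂ), ∀ t, t ≠ 0 → v t j * t ^ M = Q.eval t) ∧
      (∀ F : MvPolynomial (Fin n) ℂ, (∀ z, eval (f z) F = 0) → ∀ t, t ≠ 0 → eval (v t) F = 0) ∧
      v 1 ≠ v 2 ∧ eval (v 1) G ≠ 0 := by
  classical
  let h : ℂ → Fin (n + 1) → ℂ := fun z => Fin.cons 1 (f z)
  have hh : ∀ j, ExpPrim fun z => h z j := by
    intro j
    refine Fin.cases ?_ (fun j => ?_) j
    · exact ExpPrim.const 1
    · exact cexp_iff.1 (hf j)
  have h0 : ∀ z, h z 0 = 1 := fun z => rfl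
  have hs : ∀ z i, h z (Fin.succ i) = f z i := fun z i => rfl
  have hev : ∀ (P : MvPolynomial (Fin n) ℂ) z, eval (h z) (homog P) = eval (f z) P := by
    intro P z
    rw [eval_homog P (h z) (by rw [h0]; exact one_ne_zero), h0, one_pow, one_mul]
    congr 2
    funext i
    rw [hs, div_one]
  obtain ⟨M, F, hF1, hF2⟩ := torus_closure hh (Q := X 0) ⟨1, isHomogeneous_X ℂ 0⟩
    (ExpPrim.const 1) (fun z => by rw [eval_X, h0, one_mul])
  simp only [eval_X] at hF1
  have hbe : ∀ (P : MvPolynomial (Fin (n + 1)) ℂ) (v : Fin M → ℂ),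
      eval v (bind₁ F P) = eval (fun j => eval v (F j)) P := by
    intro P v
    rw [eval, eval₂Hom_bind₁]
    rfl
  -- a point of the torus
  obtain ⟨v, hv, hvG⟩ : ∃ v : Fin M → ℂ, (∀ i, v i ≠ 0) ∧
      eval (fun j => eval v (F j)) (homog G) ≠ 0 := by
    by_contra hcon
    push Not at hcon
    have h1 : bind₁ F (homog G) = 0 := zero_of_torus fun v hv => by
      rw [hbe]
      exact hcon v hv
    have h2 := (hF2 (homog G) ⟨_, homog_homog G⟩).2 (fun v => by rw [← hbe, h1, map_zero]) z0
    rw [hev] at h2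
    exact hG h2
  -- the map is not constant
  have hne : ∃ a b j k, eval a (F j) * eval b (F k) ≠ eval a (F k) * eval b (F j) := by
    by_contra hcon
    push Not at hcon
    obtain ⟨z, w, hzw⟩ := hnc
    apply hzw
    have hl' : eval v (F 0) ≠ 0 := hF1 v hv
    have h1 : ∀ y : ℂ, ∀ j, h y j * eval v (F 0) = h y 0 * eval v (F j) := by
      intro y j
      have hGh : (X j * C (eval v (F 0)) - X 0 * C (eval v (F j)) :
          MvPolynomial (Fin (n + 1)) ℂ).IsHomogeneous 1 := by
        have h2 : ∀ (i : Fin (n + 1)) (c : ℂ),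
            (X i * C c : MvPolynomial (Fin (n + 1)) ℂ).IsHomogeneous 1 := by
          intro i c
          have h3 := (isHomogeneous_X ℂ i).mul (isHomogeneous_C (Fin (n + 1)) c)
          simpa using h3
        exact (h2 _ _).sub (h2 _ _)
      have h2 := (hF2 _ ⟨1, hGh⟩).2 (fun w => by
        simp only [map_sub, map_mul, eval_X, eval_C]
        rw [hcon w v j 0]
        ring) y
      simp only [map_sub, map_mul, eval_X, eval_C] at h2
      exact sub_eq_zero.1 h2
    funext i
    have h2 := h1 z (Fin.succ i)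
    have h3 := h1 w (Fin.succ i)
    rw [h0, hs, one_mul] at h2 h3
    exact mul_right_cancel₀ hl' (h2.trans h3.symm)
  obtain ⟨p, ⟨k, hp⟩, j1, k1, hjk⟩ := exists_gm hv (fun v hv h0 => hF1 v hv (congrFun h0 0)) hne
  obtain ⟨c, m, hc, hcm⟩ := monomial_of_ne (p := p 0) (fun t ht => by
    rw [hp]
    exact hF1 _ fun i => mul_ne_zero (hv i) (pow_ne_zero _ ht))
  have hp0 : ∀ t, t ≠ 0 → (p 0).eval t ≠ 0 := fun t ht => by
    rw [hcm]
    exact mul_ne_zero hc (pow_ne_zero _ ht)
  have hpe : ∀ (P : MvPolynomial (Fin n) ℂ) t, t ≠ 0 →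
      eval (fun j => (p j).eval t) (homog P) =
        (p 0).eval t ^ P.totalDegree * eval (fun i => (p (Fin.succ i)).eval t / (p 0).eval t) P :=
    fun P t ht => eval_homog P (fun j => (p j).eval t) (hp0 t ht)
  have hpF : ∀ t, (fun j => (p j).eval t) = fun j => eval (fun i => v i * t ^ k i) (F j) :=
    fun t => funext fun j => hp t j
  refine ⟨fun t i => (p (Fin.succ i)).eval t / (p 0).eval t, fun j => ?_, fun P hP t ht => ?_,
    ?_, ?_⟩
  · refine ⟨m, Polynomial.C c⁻¹ * p (Fin.succ j), fun t ht => ?_⟩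
    beta_reduce
    rw [Polynomial.eval_mul, Polynomial.eval_C, hcm]
    have h1 : t ^ m ≠ 0 := pow_ne_zero _ ht
    field_simp
  · have h1 : eval (fun j => (p j).eval t) (homog P) = 0 := by
      rw [hpF]
      exact (hF2 (homog P) ⟨_, homog_homog P⟩).1 (fun z => by rw [hev]; exact hP z) _
    rw [hpe P t ht] at h1
    exact (mul_eq_zero.1 h1).resolve_left (pow_ne_zero _ (hp0 t ht))
  · intro heq
    apply hjk
    have h1 : ∀ i : Fin (n + 1), (p i).eval 1 * (p 0).eval 2 = (p i).eval 2 * (p 0).eval 1 := by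
      intro i
      refine Fin.cases (by ring) (fun i => ?_) i
      have h2 := congrFun heq i
      simp only at h2
      rwa [div_eq_div_iff (hp0 1 one_ne_zero) (hp0 2 two_ne_zero)] at h2
    have h3 := h1 j1
    have h4 := h1 k1
    apply mul_left_cancel₀ (mul_ne_zero (hp0 1 one_ne_zero) (hp0 2 two_ne_zero))
    linear_combination ((p 0).eval 1 * (p k1).eval 2) * h3 - ((p 0).eval 1 * (p j1).eval 2) * h4
  · intro h0
    apply hvG
    have h1 := hpe G 1 one_ne_zero
    rw [h0, mul_zero, hpF] at h1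
    have h2 : (fun i => v i * (1 : ℂ) ^ k i) = v := by
      funext i
      rw [one_pow, mul_one]
    rwa [h2] at h1

end

variable {K : Type} [Field K] {ι κ : Type} {n : ℕ} {σ : K →+* ℂ}
  {F : ι → MvPolynomial (Fin n) (𝓞 K)} {G : κ → MvPolynomial (Fin n) (𝓞 K)}

theorem condIExp_of_gm (h : GmCurves σ F G) : CondIExp σ F G := by
  intro f hf hV hnc z l
  rw [eval₂_eq_eval_map]
  by_contra hne
  obtain ⟨v, h1, h2, h3, h4⟩ := exists_laurent hf hnc hne
  apply h4
  rw [← eval₂_eq_eval_map]
  refine h v h1 (fun t ht i => ?_) ⟨1, 2, one_ne_zero, two_ne_zero, h3⟩ 1 one_ne_zero l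
  rw [eval₂_eq_eval_map]
  exact h2 _ (fun z => by rw [← eval₂_eq_eval_map]; exact hV z i) t ht

theorem gm_of_condIExp (h : CondIExp σ F G) : GmCurves σ F G := by
  intro v hv hV hnc t ht
  obtain ⟨t1, t2, ht1, ht2, hne⟩ := hnc
  choose M Q hQ using hv
  have hcv : ∀ j, CExp fun z => v (Complex.exp z) j := by
    intro j
    have h1 : (fun z => v (Complex.exp z) j) = fun z => (Q j).eval (Complex.exp z) *
        (Complex.exp ((-1) * z)) ^ (M j) := by
      funext z
      rw [← hQ j _ (Complex.exp_ne_zero z), neg_one_mul, Complex.exp_neg, mul_assoc, ← mul_pow,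
        mul_inv_cancel₀ (Complex.exp_ne_zero z), one_pow, mul_one]
    rw [h1, cexp_iff]
    have hpow : ∀ {g : ℂ → ℂ}, ExpPrim g → ∀ k : ℕ, ExpPrim fun z => g z ^ k := by
      intro g hg k
      induction k with
      | zero => simpa only [pow_zero] using ExpPrim.const 1
      | succ k ih => simpa only [pow_succ] using ih.mul hg
    have hpol : ∀ (q : Polynomial ℂ), ExpPrim fun z => q.eval (Complex.exp z) := by
      intro q
      induction q using Polynomial.induction_on' with
      | add p q hp hq => simpa only [Polynomial.eval_add] using hp.add hq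
      | monomial k a =>
        simpa only [Polynomial.eval_monomial] using
          (ExpPrim.const a).mul (hpow expPrim_id.exp k)
    exact (hpol (Q j)).mul (hpow ((ExpPrim.const (-1)).mul expPrim_id).exp (M j))
  have h1 := h (fun z => v (Complex.exp z)) hcv (fun z => hV _ (Complex.exp_ne_zero z))
    ⟨Complex.log t1, Complex.log t2, by
      rw [Complex.exp_log ht1, Complex.exp_log ht2]
      exact hne⟩ (Complex.log t)
  rwa [Complex.exp_log ht] at h1

end Pool.Agent.Helper435.RT
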