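import Mathlib

/-!
# Formulas in one real variable and points of projective varieties: the definitions
-/

set_option autoImplicit false

namespace Pool.Agent.Helper435.RT

open MvPolynomial
open scoped LinearAlgebra.Projectivization

/-! ### functions -/

/-- The real functions of a real variable which are obtained from the constants by additions,
multiplications, exponentials and integrations, with at most `n` nested operations. -/
inductive RExp : ℕ → (ℝ → ℝ) → Prop
  | const (n : ℕ) (c : ℝ) : RExp n (fun _ => c)
  | add {n : ℕ} {f g : ℝ → ℝ} : RExp n f → RExp n g → RExp (n + 1) (fun t => f t + g t)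
  | mul {n : ℕ} {f g : ℝ → ℝ} : RExp n f → RExp n g → RExp (n + 1) (fun t => f t * g t)
  | exp {n : ℕ} {f : ℝ → ℝ} : RExp n f → RExp (n + 1) (fun t => Real.exp (f t))
  | prim {n : ℕ} {F : ℝ → ℝ} : Differentiable ℝ F → RExp n (deriv F) → RExp (n + 1) F

/-- The complex functions `u + i v` of a real variable, where the real functions `u` and `v` are
obtained from the constants by additions, multiplications, exponentials and integrations, with at
most `n` nested operations. -/
def Formula (n : ℕ) (w : ℝ → ℂ) : Prop :=
  ∃ u v : ℝ → ℝ, RExp n u ∧ RExp n v ∧ ∀ t, w t = u t + v t * Complex.I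

/-- The entire functions which are obtained from the constants by additions, multiplications,
exponentials and integrations. -/
inductive CExp : (ℂ → ℂ) → Prop
  | const (c : ℂ) : CExp (fun _ => c)
  | add {f g : ℂ → ℂ} : CExp f → CExp g → CExp (fun z => f z + g z)
  | mul {f g : ℂ → ℂ} : CExp f → CExp g → CExp (fun z => f z * g z)
  | exp {f : ℂ → ℂ} : CExp f → CExp (fun z => Complex.exp (f z))
  | prim {F : ℂ → ℂ} : Differentiable ℂ F → CExp (deriv F) → CExp F

/-! ### varieties and curves -/

variable {N : ℕ}

/-- The point with the homogeneous coordinates `x` is a zero of all forms in the ideal `I`, that is,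
it lies on the projective variety given by the forms in `I` (or all its coordinates are zero). -/
def Lies {R A : Type} [CommRing R] [CommRing A] (φ : R →+* A)
    (I : Ideal (MvPolynomial (Fin (N + 1)) R)) (x : Fin (N + 1) → A) : Prop :=
  ∀ G ∈ I, (∃ d, G.IsHomogeneous d) → eval₂ φ x G = 0

/-- The map to the projective space with the homogeneous coordinates `f` is not constant. -/
def NonConstant (f : ℂ → Fin (N + 1) → ℂ) : Prop := ∃ z w j k, f z j * f w k ≠ f z k * f w j

variable {K : Type} [Field K]

/-- All nonconstant rational curves in `X` lie in `Z`. Here, and in the definitions below, `X` and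
`Z` are the projective varieties given by the forms in `I` and in `I'`. -/
def RationalCurves (σ : K →+* ℂ) (I I' : Ideal (MvPolynomial (Fin (N + 1)) K)) : Prop :=
  ∀ p : Fin (N + 1) → Polynomial ℂ, (∀ u, Lies σ I (fun j => (p j).eval u)) →
    NonConstant (fun u j => (p j).eval u) → ∀ u, Lies σ I' (fun j => (p j).eval u)

/-- All nonconstant entire curves in `X`, with homogeneous coordinates (perhaps with common zeros)
which are obtained from the constants by additions, multiplications, exponentials and integrations,
lie in `Z`. -/
def ExpCurves (σ : K →+* ℂ) (I I' : Ideal (MvPolynomial (Fin (N + 1)) K)) : Prop :=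
  ∀ f : ℂ → Fin (N + 1) → ℂ, (∀ j, CExp fun z => f z j) → (∀ z, Lies σ I (f z)) →
    NonConstant f → ∀ z, Lies σ I' (f z)

/-- All nonconstant entire curves in `X` lie in `Z`. For `I' = ⊤` the variety `Z` is empty, and this
is the hyperbolicity of `X`. -/
def Hyperbolic (σ : K →+* ℂ) (I I' : Ideal (MvPolynomial (Fin (N + 1)) K)) : Prop :=
  ∀ f : ℂ → Fin (N + 1) → ℂ, (∀ j, Differentiable ℂ (fun z => f z j)) → (∀ z, f z ≠ 0) →
    (∀ z, Lies σ I (f z)) → NonConstant f → ∀ z, Lies σ I' (f z)

/-! ### points -/

/-- The points of the projective variety given by the forms in `I`, with coordinates in `L`. -/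
def Pts (L : Type) [Field L] [Algebra K L] (I : Ideal (MvPolynomial (Fin (N + 1)) K)) :
    Set (ℙ L (Fin (N + 1) → L)) :=
  {P | Lies (algebraMap K L) I P.rep}

/-- The set `X(L)`, without the points of `Z`, is finite for all finite extensions `L` of `K`. -/
def Finiteness (I I' : Ideal (MvPolynomial (Fin (N + 1)) K)) : Prop :=
  ∀ (L : Type) [Field L] [NumberField L] [Algebra K L], (Pts L I \ Pts L I').Finite

/-- The points with coordinates in `L` which are given by the formulas `f`: for some real number
`t`, the numbers `f j t` are homogeneous coordinates of the point. -/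
def GivenBy {L : Type} [Field L] (τ : L →+* ℂ) (f : Fin (N + 1) → ℝ → ℂ) :
    Set (ℙ L (Fin (N + 1) → L)) :=
  {P | ∃ (t : ℝ) (c : ℂ), c ≠ 0 ∧ ∀ j, f j t = c * τ (P.rep j)}

/-- The variety `X` is given by forms of degree at most `d`: all forms in `I` are in the ideal
generated by the forms in `I` of degree at most `d`. -/
def GenBy (d : ℕ) (I : Ideal (MvPolynomial (Fin (N + 1)) K)) : Prop :=
  ∀ G ∈ I, (∃ e, G.IsHomogeneous e) → G ∈ Ideal.span {G | G ∈ I ∧ ∃ e ≤ d, G.IsHomogeneous e}

/-- For all fields `L` which contain `K`, embedded in `ℂ`, and all formulas with at most `n` nested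
operations, at most `b` points of `X(L)` outside of `Z` are given by the formulas. -/
def AtMost (b n : ℕ) (I I' : Ideal (MvPolynomial (Fin (N + 1)) K)) : Prop :=
  ∀ (L : Type) [Field L] [Algebra K L] (τ : L →+* ℂ) (f : Fin (N + 1) → ℝ → ℂ),
    (∀ j, Formula n (f j)) → ((Pts L I \ Pts L I') ∩ GivenBy τ f).encard ≤ b

/-- For all finite extensions `L` of `K` and all formulas, only finitely many points of `X(L)`
outside of `Z` are given by the formulas. -/
def FormulaFinite (I I' : Ideal (MvPolynomial (Fin (N + 1)) K)) : Prop :=
  ∀ (L : Type) [Field L] [NumberField L] [Algebra K L] (τ : L →+* ℂ) (n : ℕ)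
    (f : Fin (N + 1) → ℝ → ℂ), (∀ j, Formula n (f j)) →
    ((Pts L I \ Pts L I') ∩ GivenBy τ f).Finite

end Pool.Agent.Helper435.RT
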