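import Pool.Agent.Helper435.RT.Def

/-!
# Rational maps to projective varieties: the definitions
-/

set_option autoImplicit false

namespace Pool.Agent.Helper435.RT

open MvPolynomial
open scoped LinearAlgebra.Projectivization

variable {K : Type} [Field K] {N : ℕ}

/-- The polynomials `Φ` are the homogeneous coordinates of a rational map from an affine space to
the projective variety `X` given by the forms in `I`. -/
def RationalMap {A : Type} [Field A] (φ : K →+* A) (I : Ideal (MvPolynomial (Fin (N + 1)) K))
    {M : ℕ} (Φ : Fin (N + 1) → MvPolynomial (Fin M) A) : Prop :=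
  (∃ j, Φ j ≠ 0) ∧ ∀ v : Fin M → A, Lies φ I fun j => eval v (Φ j)

/-- The point with the homogeneous coordinates `x` lies in the Zariski closure of the image of the
rational map. -/
def InClosure {A : Type} [Field A] {M : ℕ} (Φ : Fin (N + 1) → MvPolynomial (Fin M) A)
    (x : Fin (N + 1) → A) : Prop :=
  ∀ G : MvPolynomial (Fin (N + 1)) A, (∃ e, G.IsHomogeneous e) →
    (∀ v : Fin M → A, eval (fun j => eval v (Φ j)) G = 0) → eval x G = 0

/-- The variety `X` is unirational over `ℂ`: there is a rational map from an affine space to `X`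
with Zariski dense image. -/
def Unirat (σ : K →+* ℂ) (I : Ideal (MvPolynomial (Fin (N + 1)) K)) : Prop :=
  ∃ (M : ℕ) (Φ : Fin (N + 1) → MvPolynomial (Fin M) ℂ), RationalMap σ I Φ ∧
    ∀ x, Lies σ I x → InClosure Φ x

/-- The points in the set `S` are not Zariski dense in `X`: a form vanishes at all of them, but not
at all complex points of `X`. -/
def NotDense (σ : K →+* ℂ) (I : Ideal (MvPolynomial (Fin (N + 1)) K)) {L : Type} [Field L]
    (τ : L →+* ℂ) (S : Set (ℙ L (Fin (N + 1) → L))) : Prop :=
  ∃ G : MvPolynomial (Fin (N + 1)) ℂ, (∃ e, G.IsHomogeneous e) ∧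
    (∀ P ∈ S, eval (fun j => τ (P.rep j)) G = 0) ∧ ∃ x, Lies σ I x ∧ eval x G ≠ 0

/-- `X(ℂ)` is irreducible: it is not the union of two proper closed subsets. -/
def GeomIrreducible (σ : K →+* ℂ) (I : Ideal (MvPolynomial (Fin (N + 1)) K)) : Prop :=
  ∀ G H : MvPolynomial (Fin (N + 1)) ℂ, (∃ e, G.IsHomogeneous e) → (∃ e, H.IsHomogeneous e) →
    (∀ x, Lies σ I x → eval x (G * H) = 0) →
    (∀ x, Lies σ I x → eval x G = 0) ∨ ∀ x, Lies σ I x → eval x H = 0

/-- The variety `X` is unirational over the subfield `L` of `ℂ`: there is a rational map over `L`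
from an affine space to `X`, with Zariski dense image. -/
def UniratOver (σ : K →+* ℂ) {L : Type} [Field L] [Algebra K L] (τ : L →+* ℂ)
    (I : Ideal (MvPolynomial (Fin (N + 1)) K)) : Prop :=
  ∃ (M : ℕ) (Φ : Fin (N + 1) → MvPolynomial (Fin M) L), RationalMap (algebraMap K L) I Φ ∧
    ∀ x, Lies σ I x → InClosure (fun j => MvPolynomial.map τ (Φ j)) x

end Pool.Agent.Helper435.RT
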