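import Pool.Agent.Helper435.RT.Count

/-!
# Complex formulas in one real variable
-/

set_option autoImplicit false

namespace Pool.Agent.Helper435.RT

open Filter Topology MvPolynomial

theorem Formula.mono {m n : ℕ} {w : ℝ → ℂ} (h : Formula m w) (hmn : m ≤ n) : Formula n w := by
  obtain ⟨u, v, hu, hv, h1⟩ := h
  exact ⟨u, v, hu.mono hmn, hv.mono hmn, h1⟩

theorem Formula.const (c : ℂ) : Formula 0 fun _ => c :=
  ⟨fun _ => c.re, fun _ => c.im, RExp.const _ _, RExp.const _ _, fun _ =>
    (Complex.re_add_im c).symm⟩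

theorem Formula.add {m n : ℕ} {f g : ℝ → ℂ} (hf : Formula m f) (hg : Formula n g) :
    Formula (m + n + 1) fun t => f t + g t := by
  obtain ⟨u, v, hu, hv, h1⟩ := hf
  obtain ⟨u', v', hu', hv', h2⟩ := hg
  refine ⟨_, _, (hu.mono (by omega : m ≤ m + n)).add (hu'.mono (by omega)),
    (hv.mono (by omega : m ≤ m + n)).add (hv'.mono (by omega)), fun t => ?_⟩
  beta_reduce
  rw [h1, h2]
  push_cast
  ring

theorem Formula.mul {m n : ℕ} {f g : ℝ → ℂ} (hf : Formula m f) (hg : Formula n g) :
    Formula (m + n + 3) fun t => f t * g t := by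
  obtain ⟨u, v, hu, hv, h1⟩ := hf
  obtain ⟨u', v', hu', hv', h2⟩ := hg
  have a1 := hu.mono (by omega : m ≤ m + n)
  have a2 := hv.mono (by omega : m ≤ m + n)
  have a3 := hu'.mono (by omega : n ≤ m + n)
  have a4 := hv'.mono (by omega : n ≤ m + n)
  refine ⟨_, _, (a1.mul a3).succ.add ((RExp.const _ (-1)).mul (a2.mul a4)),
    ((a1.mul a4).add (a2.mul a3)).succ, fun t => ?_⟩
  beta_reduce
  rw [h1, h2]
  push_cast
  linear_combination (v t * v' t : ℂ) * Complex.I_mul_I

theorem Formula.id : Formula 1 fun t => (t : ℂ) := by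
  refine ⟨fun t => t, fun _ => 0, RExp.prim differentiable_id ?_, RExp.const _ 0, fun t => ?_⟩
  · have h1 : deriv (fun t : ℝ => t) = fun _ => 1 := by
      funext t
      exact deriv_id t
    rw [h1]
    exact RExp.const _ 1
  · push_cast
    ring

theorem Formula.poly (p : Polynomial ℂ) : ∃ n, Formula n fun t => p.eval (t : ℂ) := by
  induction p using Polynomial.induction_on' with
  | add p q hp hq =>
    obtain ⟨n, hn⟩ := hp
    obtain ⟨m, hm⟩ := hq
    exact ⟨_, by simpa only [Polynomial.eval_add] using hn.add hm⟩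
  | monomial k a =>
    have h1 : ∀ k : ℕ, ∃ n, Formula n fun t => (t : ℂ) ^ k := by
      intro k
      induction k with
      | zero => exact ⟨0, by simpa only [pow_zero] using Formula.const 1⟩
      | succ k ih =>
        obtain ⟨n, hn⟩ := ih
        exact ⟨_, by simpa only [pow_succ] using hn.mul Formula.id⟩
    obtain ⟨n, hn⟩ := h1 k
    exact ⟨_, by simpa only [Polynomial.eval_monomial] using (Formula.const a).mul hn⟩

/-- **The number of zeros of a polynomial in formulas.** -/
theorem exists_count (N d n : ℕ) : ∃ B : ℕ, ∀ f : Fin N → ℝ → ℂ, (∀ j, Formula n (f j)) →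
    ∀ G : MvPolynomial (Fin N) ℂ, G.totalDegree ≤ d → (∃ t, eval (fun j => f j t) G ≠ 0) →
    {t : ℝ | eval (fun j => f j t) G = 0}.encard ≤ B := by
  classical
  obtain ⟨D, W, e, h⟩ := exists_bound_fin n (N + N)
  refine ⟨W (d * e), fun f hf G hG hne => ?_⟩
  choose u v hu hv huv using hf
  obtain ⟨A, hA, hfA⟩ := h (Fin.append u v) (fun i => by
    refine Fin.addCases (fun i => ?_) (fun i => ?_) i
    · rw [Fin.append_left]
      exact hu i
    · rw [Fin.append_right]
      exact hv i)
  have hu' : ∀ j, u j ∈ A e := fun j => by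
    have := hfA (Fin.castAdd N j)
    rwa [Fin.append_left] at this
  have hv' : ∀ j, v j ∈ A e := fun j => by
    have := hfA (Fin.natAdd N j)
    rwa [Fin.append_right] at this
  let AC : ℕ → Set (ℝ → ℂ) := fun d =>
    {w | ∃ p q : ℝ → ℝ, p ∈ A d ∧ q ∈ A d ∧ ∀ t, w t = p t + q t * Complex.I}
  have hmono : ∀ {a b : ℕ} {w : ℝ → ℂ}, a ≤ b → w ∈ AC a → w ∈ AC b := by
    rintro a b w hab ⟨p, q, hp, hq, hw⟩
    exact ⟨p, q, hA.mono hab hp, hA.mono hab hq, hw⟩
  have hconst : ∀ c : ℂ, (fun _ => c) ∈ AC 0 := fun c =>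
    ⟨fun _ => c.re, fun _ => c.im, hA.const _, hA.const _, fun _ => (Complex.re_add_im c).symm⟩
  have hadd : ∀ {a : ℕ} {w z : ℝ → ℂ}, w ∈ AC a → z ∈ AC a → (fun t => w t + z t) ∈ AC a := by
    rintro a w z ⟨p, q, hp, hq, hw⟩ ⟨p', q', hp', hq', hz⟩
    refine ⟨p + p', q + q', hA.add hp hp', hA.add hq hq', fun t => ?_⟩
    change w t + z t = ((p t + p' t : ℝ) : ℂ) + ((q t + q' t : ℝ) : ℂ) * Complex.I
    rw [hw, hz]
    push_cast
    ring
  have hmul : ∀ {a b : ℕ} {w z : ℝ → ℂ}, w ∈ AC a → z ∈ AC b →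
      (fun t => w t * z t) ∈ AC (a + b) := by
    rintro a b w z ⟨p, q, hp, hq, hw⟩ ⟨p', q', hp', hq', hz⟩
    refine ⟨p * p' - q * q', p * q' + q * p', hA.sub (hA.mul hp hp') (hA.mul hq hq'),
      hA.add (hA.mul hp hq') (hA.mul hq hp'), fun t => ?_⟩
    change w t * z t = ((p t * p' t - q t * q' t : ℝ) : ℂ) +
      ((p t * q' t + q t * p' t : ℝ) : ℂ) * Complex.I
    rw [hw, hz]
    push_cast
    linear_combination (q t * q' t : ℂ) * Complex.I_mul_I
  have hpow : ∀ (j : Fin N) (k : ℕ), (fun t => f j t ^ k) ∈ AC (k * e) := by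
    intro j k
    induction k with
    | zero =>
      rw [zero_mul]
      simpa only [pow_zero] using hconst 1
    | succ k ih =>
      have h1 := hmul ih ⟨u j, v j, hu' j, hv' j, huv j⟩
      have h2 : k * e + e = (k + 1) * e := by ring
      rw [h2] at h1
      simpa only [pow_succ] using h1
  have hprod : ∀ (s : Fin N →₀ ℕ) (S : Finset (Fin N)),
      (fun t => ∏ i ∈ S, f i t ^ s i) ∈ AC ((∑ i ∈ S, s i) * e) := by
    intro s S
    induction S using Finset.induction_on with
    | empty =>
      rw [Finset.sum_empty, zero_mul]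
      simpa only [Finset.prod_empty] using hconst 1
    | insert a S ha ih =>
      have h1 := hmul (hpow a (s a)) ih
      rw [Finset.sum_insert ha, add_mul]
      simpa only [Finset.prod_insert ha] using h1
  have hsum : ∀ (S : Finset (Fin N →₀ ℕ)), S ⊆ G.support →
      (fun t => ∑ s ∈ S, G.coeff s * ∏ i, f i t ^ s i) ∈ AC (d * e) := by
    intro S
    induction S using Finset.induction_on with
    | empty =>
      intro _
      simpa only [Finset.sum_empty] using hmono (Nat.zero_le _) (hconst 0)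
    | insert a S ha ih =>
      intro hS
      have h1 := hmul (hconst (G.coeff a)) (hprod a Finset.univ)
      have h2 : (∑ i, a i) ≤ d := by
        have h3 := le_totalDegree (hS (Finset.mem_insert_self a S))
        rw [Finsupp.sum_fintype _ _ (fun _ => rfl)] at h3
        exact h3.trans hG
      have h4 : 0 + (∑ i, a i) * e ≤ d * e := by
        rw [zero_add]
        exact Nat.mul_le_mul_right _ h2
      have h5 := hadd (hmono h4 h1) (ih fun x hx => hS (Finset.mem_insert_of_mem hx))
      simpa only [Finset.sum_insert ha] using h5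
  obtain ⟨p, q, hp, hq, hpq⟩ := hsum G.support subset_rfl
  have hev : ∀ t, eval (fun j => f j t) G = p t + q t * Complex.I := by
    intro t
    rw [eval_eq']
    exact hpq t
  have h2 : ∀ t, eval (fun j => f j t) G = 0 → p t = 0 ∧ q t = 0 := by
    intro t ht
    rw [hev] at ht
    have h3 := congrArg Complex.re ht
    have h4 := congrArg Complex.im ht
    simp only [Complex.add_re, Complex.ofReal_re, Complex.mul_re, Complex.I_re, mul_zero,
      Complex.ofReal_im, Complex.I_im, mul_one, sub_self, add_zero, Complex.zero_re,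
      Complex.add_im, Complex.mul_im, zero_add, Complex.zero_im] at h3 h4
    exact ⟨h3, h4⟩
  obtain ⟨t0, ht0⟩ := hne
  by_cases hp0 : p = 0
  · have hq0 : q ≠ 0 := by
      rintro rfl
      apply ht0
      rw [hev, hp0]
      simp
    exact (Set.encard_le_encard fun t ht => (h2 t ht).2).trans (hA.zeros hq hq0)
  · exact (Set.encard_le_encard fun t ht => (h2 t ht).1).trans (hA.zeros hp hp0)

end Pool.Agent.Helper435.RT
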