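import Pool.Agent.Helper435.RT.Form
import Pool.Agent.Helper435.RT.DefA

/-!
# The number of points of an affine variety given by formulas
-/

set_option autoImplicit false

namespace Pool.Agent.Helper435.RT

open MvPolynomial
open scoped NumberField

theorem Formula.ofReal {n : ℕ} {u : ℝ → ℝ} (h : RExp n u) : Formula n fun t => (u t : ℂ) :=
  ⟨u, fun _ => 0, h, RExp.const _ 0, fun t => by simp⟩

theorem Formula.poly_comp (p : Polynomial ℂ) {m : ℕ} {w : ℝ → ℂ} (hw : Formula m w) :
    ∃ n, Formula n fun t => p.eval (w t) := by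
  induction p using Polynomial.induction_on' with
  | add p q hp hq =>
    obtain ⟨n, hn⟩ := hp
    obtain ⟨m, hm⟩ := hq
    exact ⟨_, by simpa only [Polynomial.eval_add] using hn.add hm⟩
  | monomial k a =>
    have h1 : ∀ k : ℕ, ∃ n, Formula n fun t => (w t) ^ k := by
      intro k
      induction k with
      | zero => exact ⟨0, by simpa only [pow_zero] using Formula.const 1⟩
      | succ k ih =>
        obtain ⟨n, hn⟩ := ih
        exact ⟨_, by simpa only [pow_succ] using hn.mul hw⟩
    obtain ⟨n, hn⟩ := h1 k
    exact ⟨_, by simpa only [Polynomial.eval_monomial] using (Formula.const a).mul hn⟩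

/-- `e ^ (c t)` -/
theorem formula_exp (c : ℝ) : ∃ n, Formula n fun t => ((Real.exp (c * t) : ℝ) : ℂ) := by
  have h1 : RExp 1 fun t => t := by
    refine RExp.prim differentiable_id ?_
    have h1 : deriv (fun t : ℝ => t) = fun _ => 1 := by
      funext t
      exact deriv_id t
    rw [h1]
    exact RExp.const _ 1
  exact ⟨_, Formula.ofReal ((RExp.const _ c).mul h1).exp⟩

end Pool.Agent.Helper435.RT
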