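import Pool.Agent.Helper435.RT.Curve
import Pool.Agent.TH600.LC.Seq

/-!
# Points given by formulas in one real variable
-/

set_option autoImplicit false

namespace Pool.Agent.Helper435.RT

open MvPolynomial Pool.Agent.TH143 Pool.Agent.TH143.HE Pool.Agent.TH600.LC
open scoped LinearAlgebra.Projectivization

variable {K : Type} [Field K] {N : ℕ}

theorem lies_smul {L : Type} [Field L] [Algebra K L] {I : Ideal (MvPolynomial (Fin (N + 1)) K)}
    {x : Fin (N + 1) → L} (h : Lies (algebraMap K L) I x) (a : L) :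
    Lies (algebraMap K L) I (fun j => a * x j) := by
  rintro G hG ⟨d, hd⟩
  rw [eval₂_smul_homog _ a x hd, h G hG ⟨d, hd⟩, mul_zero]

theorem mem_pts {L : Type} [Field L] [Algebra K L] {I : Ideal (MvPolynomial (Fin (N + 1)) K)}
    {x : Fin (N + 1) → L} (hx : x ≠ 0) :
    Projectivization.mk L x hx ∈ Pts L I ↔ Lies (algebraMap K L) I x := by
  obtain ⟨a, ha⟩ := Projectivization.exists_smul_eq_mk_rep L x hx
  have h1 : (Projectivization.mk L x hx).rep = fun j => (a : L) * x j := by
    rw [← ha]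
    rfl
  constructor
  · intro h
    have h2 : Lies (algebraMap K L) I (Projectivization.mk L x hx).rep := h
    rw [h1] at h2
    have h3 := lies_smul h2 (a : L)⁻¹
    have h4 : (fun j => (a : L)⁻¹ * ((a : L) * x j)) = x := by
      funext j
      rw [inv_mul_cancel_left₀ a.ne_zero]
    rwa [h4] at h3
  · intro h
    change Lies (algebraMap K L) I (Projectivization.mk L x hx).rep
    rw [h1]
    exact lies_smul h _

theorem eq_of_prop {L : Type} [Field L] {P Q : ℙ L (Fin (N + 1) → L)}
    (h : ∀ i j, P.rep i * Q.rep j = P.rep j * Q.rep i) : P = Q := by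
  obtain ⟨k, hk⟩ := Function.ne_iff.1 Q.rep_nonzero
  have hk' : Q.rep k ≠ 0 := hk
  have h1 : P.rep = (P.rep k / Q.rep k) • Q.rep := by
    funext i
    rw [Pi.smul_apply, smul_eq_mul, div_mul_eq_mul_div, eq_div_iff hk']
    exact h i k
  rw [← P.mk_rep, ← Q.mk_rep, Projectivization.mk_eq_mk_iff']
  exact ⟨P.rep k / Q.rep k, h1.symm⟩

theorem exists_genBy (I : Ideal (MvPolynomial (Fin (N + 1)) K)) : ∃ d, GenBy d I := by
  classical
  let S : Set (MvPolynomial (Fin (N + 1)) K) := {G | G ∈ I ∧ ∃ e, G.IsHomogeneous e}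
  have hfg : (Ideal.span S).FG := (isNoetherianRing_iff_ideal_fg _).1 inferInstance _
  obtain ⟨T, hTS, hT⟩ := (Submodule.fg_span_iff_fg_span_finset_subset S).1 hfg
  refine ⟨T.sup fun G => G.totalDegree, fun G hG hGh => ?_⟩
  have h1 : G ∈ Ideal.span S := Ideal.subset_span ⟨hG, hGh⟩
  have h2 : G ∈ Ideal.span (T : Set (MvPolynomial (Fin (N + 1)) K)) := by
    have h3 : Ideal.span S = Ideal.span (T : Set (MvPolynomial (Fin (N + 1)) K)) := hT
    rwa [← h3]
  refine Ideal.span_mono (fun G' hG' => ?_) h2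
  obtain ⟨h4, e, he⟩ := hTS hG'
  refine ⟨h4, ?_⟩
  by_cases h0 : G' = 0
  · exact ⟨0, Nat.zero_le _, by rw [h0]; exact isHomogeneous_zero _ _ _⟩
  · refine ⟨e, ?_, he⟩
    rw [← he.totalDegree h0]
    exact Finset.le_sup (f := fun G => G.totalDegree) hG'

theorem lies_of_genBy {d : ℕ} {I : Ideal (MvPolynomial (Fin (N + 1)) K)} (hd : GenBy d I)
    {A : Type} [CommRing A] {φ : K →+* A} {x : Fin (N + 1) → A}
    (h : ∀ G ∈ I, (∃ e ≤ d, G.IsHomogeneous e) → eval₂ φ x G = 0) : Lies φ I x := by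
  intro G hG hGh
  have h1 : Ideal.span {G | G ∈ I ∧ ∃ e ≤ d, G.IsHomogeneous e} ≤
      RingHom.ker (eval₂Hom φ x) := Ideal.span_le.2 fun G hG => h G hG.1 hG.2
  exact h1 (hd G hG hGh)

theorem rat_embed [NumberField K] {σ σ' : K →+* ℂ} {I I' : Ideal (MvPolynomial (Fin (N + 1)) K)}
    (h : RatCurvesIn σ I I') : RatCurvesIn σ' I I' := by
  rw [ratCurvesIn_iff] at h ⊢
  intro p hp
  obtain ⟨L, hfL, hLn, hLa, p', hp'⟩ : ∃ (L : Type) (_ : Field L) (_ : NumberField L)
      (_ : Algebra K L) (p' : Fin (N + 1) → Polynomial L), RCur (algebraMap K L) I I' p' := by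
    let _ : Algebra K ℂ := σ'.toAlgebra
    have hp1 : RCur ((algebraMap K ℂ).comp (RingHom.id K)) I I' p := hp
    obtain ⟨L, _, _, _, p', hp'⟩ := RCur.spec (k := K) (E := ℂ) (RingHom.id K) hp1
    have hchar : CharZero L := charZero_of_injective_algebraMap (algebraMap K L).injective
    have hfin : FiniteDimensional ℚ L := FiniteDimensional.trans ℚ K L
    have hnf : NumberField L := ⟨⟩
    rw [RingHom.comp_id] at hp'
    exact ⟨L, _, hnf, _, p', hp'⟩
  let _ : Algebra K ℂ := σ.toAlgebra
  have halg : Algebra.IsAlgebraic K L := Algebra.IsAlgebraic.tower_top (K := ℚ) K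
  let e : L →ₐ[K] ℂ := IsAlgClosed.lift
  have he : (e : L →+* ℂ).comp (algebraMap K L) = σ := by
    ext r
    exact e.commutes _
  have h1 := hp'.map (e : L →+* ℂ)
  rw [he] at h1
  exact h _ h1

/-- the bound -/
theorem exists_atMost (N d n : ℕ) : ∃ b : ℕ, ∀ (K : Type) [Field K] [NumberField K] (σ : K →+* ℂ)
    (I I' : Ideal (MvPolynomial (Fin (N + 1)) K)), GenBy d I → RatCurvesIn σ I I' →
    AtMost b n I I' := by
  classical
  obtain ⟨B, hB⟩ := exists_count (N + 1) d n
  refine ⟨B + 1, fun K _ _ σ I I' hd hrat L _ _ τ f hf => ?_⟩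
  set σ' : K →+* ℂ := τ.comp (algebraMap K L) with hσ'
  have hpt : ∀ (G : MvPolynomial (Fin (N + 1)) K) (y : Fin (N + 1) → L),
      eval₂ σ' (fun j => τ (y j)) G = τ (eval₂ (algebraMap K L) y G) := fun G y =>
    (eval₂_comp_left τ (algebraMap K L) y G).symm
  have hsmul : ∀ (G : MvPolynomial (Fin (N + 1)) K) (e : ℕ), G.IsHomogeneous e →
      ∀ (t : ℝ) (c : ℂ) (P : ℙ L (Fin (N + 1) → L)), (∀ j, f j t = c * τ (P.rep j)) →
      eval₂ σ' (fun j => f j t) G = c ^ e * τ (eval₂ (algebraMap K L) P.rep G) := by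
    intro G e hG t c P h1
    have h2 : (fun j => f j t) = fun j => c * τ (P.rep j) := funext h1
    rw [h2, eval₂_smul_homog _ c _ hG, hpt]
  by_cases hall : ∀ G ∈ I, (∃ e ≤ d, G.IsHomogeneous e) → ∀ t, eval₂ σ' (fun j => f j t) G = 0
  · -- the whole curve lies in `X`
    have hle : ((Pts L I \ Pts L I') ∩ GivenBy τ f).encard ≤ 1 := by
      rw [Set.encard_le_one_iff]
      rintro P Q ⟨⟨hP1, hP2⟩, t, c, hc, hP3⟩ ⟨⟨hQ1, hQ2⟩, t', c', hc', hQ3⟩
      by_contra hne
      choose F hF hFf using fun j => (hf j).exists_ext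
      have hX : ∀ z, Lies σ' I (fun j => F j z) := by
        intro z
        refine lies_of_genBy hd fun G hG hGe => ?_
        have h1 : Differentiable ℂ fun z => eval (fun j => F j z) (MvPolynomial.map σ' G) :=
          eval_diff (f := fun z j => F j z) (fun j => (hF j).diff) _
        have h2 := eq_zero_of_freq h1 0 (Filter.Eventually.frequently
          (Filter.Eventually.of_forall fun s => by
            have h3 : (fun j => F j (s : ℂ)) = fun j => f j s := funext fun j => hFf j s
            rw [h3, eval_map]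
            exact hall G hG hGe s))
        have h4 := h2 z
        rwa [eval_map] at h4
      have hnc : NonConstC (fun z j => F j z) := by
        by_contra hcon
        apply hne
        apply eq_of_prop
        intro i j
        unfold NonConstC at hcon
        push Not at hcon
        have h1 := hcon t t' i j
        rw [hFf, hFf, hFf, hFf, hP3, hP3, hQ3, hQ3] at h1
        apply τ.injective
        rw [map_mul, map_mul]
        apply mul_left_cancel₀ (mul_ne_zero hc hc')
        linear_combination h1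
      have hZ := exp_of_rat (rat_embed hrat : RatCurvesIn σ' I I') (fun z j => F j z) hF hX hnc t
      apply hP2
      intro G hG hGh
      obtain ⟨e, he⟩ := hGh
      have h1 := hZ G hG ⟨e, he⟩
      have h3 : (fun j => F j (t : ℂ)) = fun j => f j t := funext fun j => hFf j t
      rw [h3, hsmul G e he t c P hP3, mul_eq_zero, map_eq_zero] at h1
      exact h1.resolve_left (pow_ne_zero _ hc)
    refine hle.trans ?_
    exact_mod_cast Nat.le_add_left 1 B
  · push Not at hall
    obtain ⟨G, hG, ⟨e, hed, he⟩, t0, ht0⟩ := hall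
    have h1 : {t : ℝ | eval (fun j => f j t) (MvPolynomial.map σ' G) = 0}.encard ≤ B := by
      refine hB f hf _ ?_ ⟨t0, by rwa [eval_map]⟩
      refine (he.map σ').totalDegree_le.trans hed
    have h2 : ((Pts L I \ Pts L I') ∩ GivenBy τ f).encard ≤
        {t : ℝ | eval (fun j => f j t) (MvPolynomial.map σ' G) = 0}.encard := by
      have h3 : ∀ P : ((Pts L I \ Pts L I') ∩ GivenBy τ f : Set (ℙ L (Fin (N + 1) → L))),
          ∃ (t : ℝ) (c : ℂ), c ≠ 0 ∧ ∀ j, f j t = c * τ (P.1.rep j) := fun P => P.2.2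
      choose T C hC hT using h3
      refine Set.encard_le_encard_of_injOn (f := fun P =>
        if h : P ∈ (Pts L I \ Pts L I') ∩ GivenBy τ f then T ⟨P, h⟩ else 0) ?_ ?_
      · intro P hP
        beta_reduce
        rw [dif_pos hP]
        change eval (fun j => f j (T ⟨P, hP⟩)) (MvPolynomial.map σ' G) = 0
        rw [eval_map, hsmul G e he (T ⟨P, hP⟩) (C ⟨P, hP⟩) P (hT ⟨P, hP⟩)]
        have h4 : eval₂ (algebraMap K L) P.rep G = 0 := hP.1.1 G hG ⟨e, he⟩
        rw [h4, map_zero, mul_zero]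
      · intro P hP Q hQ hPQ
        simp only [dif_pos hP, dif_pos hQ] at hPQ
        apply eq_of_prop
        intro i j
        have a1 := hT ⟨P, hP⟩ i
        have a2 := hT ⟨P, hP⟩ j
        have a3 := hT ⟨Q, hQ⟩ i
        have a4 := hT ⟨Q, hQ⟩ j
        rw [hPQ] at a1 a2
        apply τ.injective
        rw [map_mul, map_mul]
        apply mul_left_cancel₀ (mul_ne_zero (hC ⟨P, hP⟩) (hC ⟨Q, hQ⟩))
        have a5 : (C ⟨P, hP⟩ * τ (P.rep i)) * (C ⟨Q, hQ⟩ * τ (Q.rep j)) =
            (C ⟨P, hP⟩ * τ (P.rep j)) * (C ⟨Q, hQ⟩ * τ (Q.rep i)) := by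
          rw [← a1, ← a2, ← a3, ← a4]
          ring
        linear_combination a5
    refine (h2.trans h1).trans ?_
    exact_mod_cast Nat.le_succ B

theorem main : ∃ B : ℕ → ℕ → ℕ → ℕ, ∀ (K : Type) [Field K] [NumberField K] (σ : K →+* ℂ) (N : ℕ)
    (I I' : Ideal (MvPolynomial (Fin (N + 1)) K)),
    [RationalCurves σ I I', ExpCurves σ I I', ∀ d n, GenBy d I → AtMost (B N d n) n I I',
      FormulaFinite I I'].TFAE ∧
    (Hyperbolic σ I I' → ∀ d n, GenBy d I → AtMost (B N d n) n I I') ∧
    (Finiteness I I' → ExpCurves σ I I') := by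
  classical
  choose B hB using exists_atMost
  refine ⟨B, fun K _ _ σ N I I' => ?_⟩
  rw [rationalCurves_iff, expCurves_iff]
  have h12 : RatCurvesIn σ I I' → ExpCurvesIn σ I I' := exp_of_rat
  have h21 : ExpCurvesIn σ I I' → RatCurvesIn σ I I' := rat_of_exp
  have h13 : RatCurvesIn σ I I' → ∀ d n, GenBy d I → AtMost (B N d n) n I I' := by
    intro h d n hd
    exact hB N d n K σ I I' hd h
  have h34 : (∀ d n, GenBy d I → AtMost (B N d n) n I I') → FormulaFinite I I' := by
    intro h L _ _ _ τ n f hf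
    obtain ⟨d, hd⟩ := exists_genBy I
    exact Set.finite_of_encard_le_coe (h d n hd L τ f hf)
  have h41 : FormulaFinite I I' → RatCurvesIn σ I I' := by
    intro h
    rw [ratCurvesIn_iff]
    intro p hp
    let _ : Algebra K ℂ := σ.toAlgebra
    have hp1 : RCur ((algebraMap K ℂ).comp (RingHom.id K)) I I' p := hp
    obtain ⟨L, _, _, _, p', hp'⟩ := RCur.spec (k := K) (E := ℂ) (RingHom.id K) hp1
    have hchar : CharZero L := charZero_of_injective_algebraMap (algebraMap K L).injective
    have hfin : FiniteDimensional ℚ L := FiniteDimensional.trans ℚ K L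
    have hnf : NumberField L := ⟨⟩
    rw [RingHom.comp_id] at hp'
    have halg : Algebra.IsAlgebraic K L := Algebra.IsAlgebraic.tower_top (K := ℚ) K
    let e : L →ₐ[K] ℂ := IsAlgClosed.lift
    obtain ⟨x, h1, h2, h3, h4, h5⟩ := exists_seq_poly (algebraMap K L) hp'
    choose q hq using h4
    choose n hn using fun j => Formula.poly ((q j).map (e : L →+* ℂ))
    have h6 := h L (e : L →+* ℂ) (Finset.univ.sup n)
      (fun j t => ((q j).map (e : L →+* ℂ)).eval (t : ℂ))
      (fun j => (hn j).mono (Finset.le_sup (Finset.mem_univ j)))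
    have h7 := h6.preimage' (f := fun m => Projectivization.mk L (x m) (h1 m)) fun P _ => by
      refine (h5 P.rep P.rep_nonzero).subset fun m hm i j => ?_
      have h8 : Projectivization.mk L (x m) (h1 m) = P := hm
      rw [← h8]
      obtain ⟨a, ha⟩ := Projectivization.exists_smul_eq_mk_rep L (x m) (h1 m)
      rw [← ha]
      change x m i * ((a : L) * x m j) = x m j * ((a : L) * x m i)
      ring
    refine Set.infinite_univ (h7.subset fun m _ => ?_)
    refine ⟨⟨(mem_pts (h1 m)).2 (h2 m), fun hc => h3 m ((mem_pts (h1 m)).1 hc)⟩, (m : ℝ), ?_⟩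
    obtain ⟨a, ha⟩ := Projectivization.exists_smul_eq_mk_rep L (x m) (h1 m)
    refine ⟨e ((a : L)⁻¹), ?_, fun j => ?_⟩
    · rw [Ne, map_eq_zero]
      exact inv_ne_zero a.ne_zero
    · have h8 : (Projectivization.mk L (x m) (h1 m)).rep j = (a : L) * x m j := by
        rw [← ha]
        rfl
      rw [h8]
      change ((q j).map (e : L →+* ℂ)).eval (((m : ℕ) : ℝ) : ℂ) = e ((a : L)⁻¹) * e ((a : L) * x m j)
      have h9 : x m j = (q j).eval (m : L) := hq j m
      rw [← map_mul, inv_mul_cancel_left₀ a.ne_zero, h9, Complex.ofReal_natCast,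
        Polynomial.eval_natCast_map]
      rfl
  refine ⟨?_, fun h => h13 (rat_of_gap fun f hf hne _ h1 h2 => h f hf hne h1 h2),
    fun h => h12 (h41 ?_)⟩
  · tfae_have 1 → 2 := h12
    tfae_have 2 → 1 := h21
    tfae_have 1 → 3 := h13
    tfae_have 3 → 4 := h34
    tfae_have 4 → 1 := h41
    tfae_finish
  · intro L _ _ _ τ n f hf
    exact (h L).subset Set.inter_subset_left

end Pool.Agent.Helper435.RT
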