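import Pool.Agent.Helper435.RT.CurveA
import Pool.Agent.Helper435.RT.FormA

/-!
# Integral points given by formulas in one real variable
-/

set_option autoImplicit false

namespace Pool.Agent.Helper435.RT

open MvPolynomial IsDedekindDomain
open scoped NumberField
open Pool.Agent.W235.RM (GmCurvesIn HasLaurent hasLaurent_of_exp not_exp_of_not_gm
  not_gm_of_hasLaurent infinite_points)
open Pool.Agent.H159R3.Exp (Laur integral_pts)

variable {K : Type} [Field K] {ι κ : Type} {n : ℕ}

theorem gmCurves_iff {σ : K →+* ℂ} {F : ι → MvPolynomial (Fin n) (𝓞 K)}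
    {G : κ → MvPolynomial (Fin n) (𝓞 K)} : GmCurves σ F G ↔ GmCurvesIn σ F G := by
  constructor
  · intro h v hv hF hnc l t ht
    exact h v hv (fun t ht i => hF i t ht) hnc t ht l
  · intro h v hv hF hnc t ht l
    exact h v hv (fun i t ht => hF t ht i) hnc l t ht

theorem gm_of_not_hasLaurent [NumberField K] (σ : K →+* ℂ)
    {F : ι → MvPolynomial (Fin n) (𝓞 K)} {G : κ → MvPolynomial (Fin n) (𝓞 K)}
    (h : ¬ HasLaurent F G) : GmCurves σ F G := by
  rw [gmCurves_iff]
  by_contra h2
  exact h (hasLaurent_of_exp F G σ (not_exp_of_not_gm σ F G h2))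

theorem gm_embed [NumberField K] {σ : K →+* ℂ} (σ' : K →+* ℂ)
    {F : ι → MvPolynomial (Fin n) (𝓞 K)} {G : κ → MvPolynomial (Fin n) (𝓞 K)}
    (h : GmCurves σ F G) : GmCurves σ' F G :=
  gm_of_not_hasLaurent σ' fun hL => not_gm_of_hasLaurent σ F G hL (gmCurves_iff.1 h)

theorem totalDegree_map_le' {R S : Type} [CommRing R] [CommRing S] (φ : R →+* S)
    (P : MvPolynomial (Fin n) R) : (MvPolynomial.map φ P).totalDegree ≤ P.totalDegree := by
  refine Finset.sup_mono fun s hs => ?_
  rw [mem_support_iff, coeff_map] at hs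
  rw [mem_support_iff]
  intro h0
  rw [h0, map_zero] at hs
  exact hs rfl

/-- the bound -/
theorem exists_atMostA (n d m : ℕ) : ∃ b : ℕ, ∀ (K : Type) [Field K] [NumberField K]
    (σ : K →+* ℂ) (ι κ : Type) (F : ι → MvPolynomial (Fin n) (𝓞 K))
    (G : κ → MvPolynomial (Fin n) (𝓞 K)), (∀ i, (F i).totalDegree ≤ d) → GmCurves σ F G →
    AtMostA b m F G := by
  classical
  obtain ⟨B, hB⟩ := exists_count n d m
  refine ⟨B + 1, fun K _ _ σ ι κ F G hd hgm L _ _ τ f hf => ?_⟩
  set ψ : 𝓞 K →+* L := (algebraMap K L).comp (algebraMap (𝓞 K) K) with hψ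
  set σ' : K →+* ℂ := τ.comp (algebraMap K L) with hσ'
  have hcomp : σ'.comp (algebraMap (𝓞 K) K) = τ.comp ψ := by
    rw [hσ', hψ, RingHom.comp_assoc]
  have hpt : ∀ (P : MvPolynomial (Fin n) (𝓞 K)) (y : Fin n → L),
      eval₂ (σ'.comp (algebraMap (𝓞 K) K)) (fun j => τ (y j)) P = τ (eval₂ ψ y P) := by
    intro P y
    rw [hcomp]
    exact (eval₂_comp_left τ ψ y P).symm
  by_cases hall : ∀ i t, eval₂ (σ'.comp (algebraMap (𝓞 K) K)) (fun j => f j t) (F i) = 0
  · have hle : ((APts L F \ APts L G) ∩ Given τ f).encard ≤ 1 := by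
      rw [Set.encard_le_one_iff]
      rintro P Q ⟨⟨hP1, hP2⟩, t, hP3⟩ ⟨⟨hQ1, hQ2⟩, t', hQ3⟩
      by_contra hne
      choose H hH hHf using fun j => (hf j).exists_ext
      have hev : ∀ (P : MvPolynomial (Fin n) ℂ),
          Differentiable ℂ fun z => eval (fun j => H j z) P := by
        intro P
        induction P using MvPolynomial.induction_on with
        | C a => simpa only [eval_C] using differentiable_const a
        | add p q hp hq => simpa only [map_add] using hp.fun_add hq
        | mul_X p j hp => simpa only [map_mul, eval_X] using hp.fun_mul (hH j).diff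
      have hreal : ∀ s : ℝ, (fun j => H j (s : ℂ)) = fun j => f j s := fun s =>
        funext fun j => hHf j s
      have hX : ∀ z, CPt σ' F (fun j => H j z) := by
        intro z i
        have h2 := eq_zero_of_freq (hev (MvPolynomial.map (σ'.comp (algebraMap (𝓞 K) K)) (F i))) 0
          (Filter.Eventually.frequently (Filter.Eventually.of_forall fun s => by
            rw [hreal s, eval_map]
            exact hall i s))
        have h4 := h2 z
        rwa [eval_map] at h4
      have hZ := condIExp_of_gm (gm_embed σ' hgm) (fun z j => H j z)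
        (fun j => cexp_iff.2 (hH j)) hX ⟨t, t', fun h0 => hne (funext fun j => by
          have h1 : H j (t : ℂ) = H j (t' : ℂ) := congrFun h0 j
          rw [hHf, hHf, ← hP3, ← hQ3] at h1
          exact τ.injective h1)⟩ t
      apply hP2
      intro l
      have h1 := hZ l
      rw [hreal t] at h1
      have h3 : (fun j => f j t) = fun j => τ (P j) := funext fun j => (hP3 j).symm
      rw [h3, hpt] at h1
      exact (map_eq_zero τ).1 h1
    refine hle.trans ?_
    exact_mod_cast Nat.le_add_left 1 B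
  · push Not at hall
    obtain ⟨i, t0, ht0⟩ := hall
    have h1 : {t : ℝ | eval (fun j => f j t)
        (MvPolynomial.map (σ'.comp (algebraMap (𝓞 K) K)) (F i)) = 0}.encard ≤ B :=
      hB f hf _ ((totalDegree_map_le' _ _).trans (hd i)) ⟨t0, by rwa [eval_map]⟩
    have h2 : ((APts L F \ APts L G) ∩ Given τ f).encard ≤ {t : ℝ | eval (fun j => f j t)
        (MvPolynomial.map (σ'.comp (algebraMap (𝓞 K) K)) (F i)) = 0}.encard := by
      have h3 : ∀ P : ((APts L F \ APts L G) ∩ Given τ f : Set (Fin n → L)),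
          ∃ t : ℝ, ∀ j, τ (P.1 j) = f j t := fun P => P.2.2
      choose T hT using h3
      refine Set.encard_le_encard_of_injOn (f := fun P =>
        if h : P ∈ (APts L F \ APts L G) ∩ Given τ f then T ⟨P, h⟩ else 0) ?_ ?_
      · intro P hP
        beta_reduce
        rw [dif_pos hP]
        change eval (fun j => f j (T ⟨P, hP⟩)) _ = 0
        have h4 : (fun j => f j (T ⟨P, hP⟩)) = fun j => τ (P j) :=
          funext fun j => (hT ⟨P, hP⟩ j).symm
        rw [eval_map, h4, hpt]
        have h5 : eval₂ ψ P (F i) = 0 := hP.1.1 i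
        rw [h5, map_zero]
      · intro P hP Q hQ hPQ
        simp only [dif_pos hP, dif_pos hQ] at hPQ
        funext j
        apply τ.injective
        have a1 := hT ⟨P, hP⟩ j
        have a2 := hT ⟨Q, hQ⟩ j
        rw [hPQ] at a1
        exact a1.trans a2.symm
    refine (h2.trans h1).trans ?_
    exact_mod_cast Nat.le_succ B

theorem not_hasLaurent_of_formula {F : ι → MvPolynomial (Fin n) (𝓞 K)}
    {G : κ → MvPolynomial (Fin n) (𝓞 K)} (h : CondIIFormula F G) : ¬ HasLaurent F G := by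
  classical
  rintro ⟨L, _, _, _, v, hv, hvF, hG, hne⟩
  obtain ⟨S, hS, hint⟩ := integral_pts v hv
  apply infinite_points F G L v hv hvF hG hne 2 le_rfl
  let τ : L →+* ℂ := (IsAlgClosed.lift : L →ₐ[ℚ] ℂ)
  choose M Q hQ using hv
  have hform : ∀ j, ∃ m, Formula m fun t =>
      ((Q j).map τ).eval ((Real.exp (Real.log 2 * t) : ℝ) : ℂ) *
        ((Polynomial.X ^ (M j) : Polynomial ℂ).eval ((Real.exp (-Real.log 2 * t) : ℝ) : ℂ)) := by
    intro j
    obtain ⟨m1, h1⟩ := formula_exp (Real.log 2)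
    obtain ⟨m2, h2⟩ := formula_exp (-Real.log 2)
    obtain ⟨m3, h3⟩ := Formula.poly_comp ((Q j).map τ) h1
    obtain ⟨m4, h4⟩ := Formula.poly_comp (Polynomial.X ^ (M j)) h2
    exact ⟨_, h3.mul h4⟩
  choose m hm using hform
  refine (h L S hS τ (Finset.univ.sup m) _
    (fun j => (hm j).mono (Finset.le_sup (Finset.mem_univ j)))).subset ?_
  rintro x ⟨hx1, ⟨l, hl⟩, k, rfl⟩
  refine ⟨⟨⟨fun j => ?_, hx1⟩, fun hmem => hl (hmem.2 l)⟩, (k : ℝ), fun j => ?_⟩
  · have h1 := hint k j
    exact_mod_cast h1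
  · have h2 : ((2 : ℕ) : L) ^ k ≠ 0 := pow_ne_zero _ (by norm_num)
    have h3 := hQ j _ h2
    have h4 : Real.exp (Real.log 2 * k) = 2 ^ k := by
      rw [mul_comm, Real.exp_nat_mul, Real.exp_log two_pos]
    have h5 : Real.exp (-Real.log 2 * k) = (2 ^ k)⁻¹ := by
      rw [neg_mul, Real.exp_neg, h4]
    beta_reduce
    rw [h4, h5, Polynomial.eval_pow, Polynomial.eval_X]
    have h6 : (((2 : ℝ) ^ k : ℝ) : ℂ) = τ (((2 : ℕ) : L) ^ k) := by
      rw [map_pow, map_natCast]
      push_cast
      rfl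
    have h7 : ((((2 : ℝ) ^ k)⁻¹ : ℝ) : ℂ) = (τ (((2 : ℕ) : L) ^ k))⁻¹ := by
      rw [Complex.ofReal_inv, h6]
    rw [h6, h7, Polynomial.eval_map_apply, ← h3, map_mul, map_pow, mul_assoc, ← mul_pow,
      mul_inv_cancel₀ ((map_ne_zero τ).2 h2), one_pow, mul_one]

theorem mainA : ∃ B : ℕ → ℕ → ℕ → ℕ, ∀ (K : Type) [Field K] [NumberField K] (σ : K →+* ℂ)
    (ι κ : Type) [Finite ι] (n : ℕ) (F : ι → MvPolynomial (Fin n) (𝓞 K))
    (G : κ → MvPolynomial (Fin n) (𝓞 K)),
    [CondIExp σ F G, GmCurves σ F G,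
      ∀ d m, (∀ i, (F i).totalDegree ≤ d) → AtMostA (B n d m) m F G,
      CondIIFormula F G].TFAE ∧
    (CondI σ F G → ∀ d m, (∀ i, (F i).totalDegree ≤ d) → AtMostA (B n d m) m F G) ∧
    (CondII F G → CondIExp σ F G) := by
  classical
  choose B hB using exists_atMostA
  refine ⟨B, fun K _ _ σ ι κ _ n F G => ?_⟩
  have h12 : CondIExp σ F G → GmCurves σ F G := gm_of_condIExp
  have h21 : GmCurves σ F G → CondIExp σ F G := condIExp_of_gm
  have h23 : GmCurves σ F G → ∀ d m, (∀ i, (F i).totalDegree ≤ d) →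
      AtMostA (B n d m) m F G := fun h d m hd => hB n d m K σ ι κ F G hd h
  have h34 : (∀ d m, (∀ i, (F i).totalDegree ≤ d) → AtMostA (B n d m) m F G) →
      CondIIFormula F G := by
    intro h L _ _ _ S _ τ m f hf
    have := Fintype.ofFinite ι
    have h1 := h (∑ i, (F i).totalDegree) m (fun i =>
      Finset.single_le_sum (f := fun i => (F i).totalDegree) (fun _ _ => Nat.zero_le _)
        (Finset.mem_univ i)) L τ f hf
    refine (Set.finite_of_encard_le_coe h1).subset ?_
    rintro x ⟨⟨hx1, hx2⟩, hx3⟩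
    exact ⟨⟨hx1.2, fun h0 => hx2 ⟨hx1.1, h0⟩⟩, hx3⟩
  have h42 : CondIIFormula F G → GmCurves σ F G := fun h =>
    gm_of_not_hasLaurent σ (not_hasLaurent_of_formula h)
  refine ⟨?_, fun h => h23 (h12 fun f hf => h f (differentiable_pi.2 fun j =>
    (cexp_iff.1 (hf j)).diff)), fun h => h21 (h42 ?_)⟩
  · tfae_have 1 → 2 := h12
    tfae_have 2 → 1 := h21
    tfae_have 2 → 3 := h23
    tfae_have 3 → 4 := h34
    tfae_have 4 → 2 := h42
    tfae_finish
  · intro L _ _ _ S hS τ m f _
    exact (h L S hS).subset Set.inter_subset_left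

end Pool.Agent.Helper435.RT
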