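import Pool.Agent.Helper435.RT.Main
import Pool.Agent.Helper435.RT.DefD
import Pool.Agent.TH600.LE.Gm

/-!
# Zariski closures of points given by formulas
-/

set_option autoImplicit false

namespace Pool.Agent.Helper435.RT

open Filter Topology MvPolynomial
open scoped LinearAlgebra.Projectivization
open Pool.Agent.TH600.LE (ExpPrim torus_closure)
open Pool.Agent.TH143.HE (eval₂_smul_homog)

variable {N : ℕ}

/-- **The closure of an entire curve** built by exponentials and integrations is the closure of the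
image of an affine space. -/
theorem closure_curve {f : ℂ → Fin (N + 1) → ℂ} (hf : ∀ j, ExpPrim fun z => f z j)
    (h0 : ∃ z, f z ≠ 0) : ∃ (M : ℕ) (Φ : Fin (N + 1) → MvPolynomial (Fin M) ℂ), (∃ j, Φ j ≠ 0) ∧
      ∀ G : MvPolynomial (Fin (N + 1)) ℂ, (∃ d, G.IsHomogeneous d) →
        ((∀ z, eval (f z) G = 0) ↔ ∀ v : Fin M → ℂ, eval (fun j => eval v (Φ j)) G = 0) := by
  classical
  let h : ℂ → Fin (N + 1 + 1) → ℂ := fun z => Fin.cons 1 (f z)
  have hh : ∀ j, ExpPrim fun z => h z j := by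
    intro j
    refine Fin.cases ?_ (fun j => ?_) j
    · exact ExpPrim.const 1
    · exact hf j
  obtain ⟨M, F, -, hF2⟩ := torus_closure hh (Q := X 0) ⟨1, isHomogeneous_X ℂ 0⟩
    (ExpPrim.const 1) (fun z => by
      rw [eval_X]
      exact one_mul 1)
  have key : ∀ G : MvPolynomial (Fin (N + 1)) ℂ, (∃ d, G.IsHomogeneous d) →
      ((∀ z, eval (f z) G = 0) ↔ ∀ v : Fin M → ℂ, eval (fun j => eval v (F (Fin.succ j))) G = 0) := by
    rintro G ⟨d, hd⟩
    have h1 := hF2 (rename Fin.succ G) ⟨d, hd.rename_isHomogeneous⟩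
    simp only [eval_rename] at h1
    exact h1
  refine ⟨M, fun j => F (Fin.succ j), ?_, key⟩
  by_contra hcon
  push Not at hcon
  obtain ⟨z, hz⟩ := h0
  apply hz
  funext j
  have h1 := (key (X j) ⟨1, isHomogeneous_X ℂ j⟩).2 (fun v => by rw [eval_X, hcon j, map_zero]) z
  rwa [eval_X] at h1

/-- the dichotomy -/
theorem exists_dich (N d n : ℕ) : ∃ B : ℕ, ∀ (K : Type) [Field K] (σ : K →+* ℂ)
    (I : Ideal (MvPolynomial (Fin (N + 1)) K)), GenBy d I → ∀ (L : Type) [Field L] [Algebra K L]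
    (τ : L →+* ℂ), τ.comp (algebraMap K L) = σ → ∀ f : Fin (N + 1) → ℝ → ℂ,
    (∀ j, Formula n (f j)) → (Pts L I ∩ GivenBy τ f).encard ≤ B ∨
      ∃ (M : ℕ) (Φ : Fin (N + 1) → MvPolynomial (Fin M) ℂ), RationalMap σ I Φ ∧
        ∀ P ∈ GivenBy τ f, InClosure Φ fun j => τ (P.rep j) := by
  classical
  obtain ⟨B, hB⟩ := exists_count (N + 1) d n
  refine ⟨B, fun K _ σ I hd L _ _ τ hτ f hf => ?_⟩
  have hpt : ∀ (G : MvPolynomial (Fin (N + 1)) K) (y : Fin (N + 1) → L),
      eval₂ σ (fun j => τ (y j)) G = τ (eval₂ (algebraMap K L) y G) := by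
    intro G y
    rw [← hτ]
    exact (eval₂_comp_left τ (algebraMap K L) y G).symm
  have hsmul : ∀ (G : MvPolynomial (Fin (N + 1)) K) (e : ℕ), G.IsHomogeneous e →
      ∀ (t : ℝ) (c : ℂ) (P : ℙ L (Fin (N + 1) → L)), (∀ j, f j t = c * τ (P.rep j)) →
      eval₂ σ (fun j => f j t) G = c ^ e * τ (eval₂ (algebraMap K L) P.rep G) := by
    intro G e hG t c P h1
    have h2 : (fun j => f j t) = fun j => c * τ (P.rep j) := funext h1
    rw [h2, eval₂_smul_homog _ c _ hG, hpt]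
  by_cases hemp : GivenBy τ f = ∅
  · left
    rw [hemp, Set.inter_empty, Set.encard_empty]
    exact zero_le
  by_cases hall : ∀ G ∈ I, (∃ e ≤ d, G.IsHomogeneous e) → ∀ t, eval₂ σ (fun j => f j t) G = 0
  · right
    obtain ⟨P0, t0, c0, hc0, hP0⟩ := Set.nonempty_iff_ne_empty.2 hemp
    choose F hF hFf using fun j => (hf j).exists_ext
    have hX : ∀ z, Lies σ I (fun j => F j z) := by
      intro z
      refine lies_of_genBy hd fun G hG hGe => ?_
      have h1 : Differentiable ℂ fun z => eval (fun j => F j z) (MvPolynomial.map σ G) :=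
        eval_diff (f := fun z j => F j z) (fun j => (hF j).diff) _
      have h2 := eq_zero_of_freq h1 0 (Filter.Eventually.frequently
        (Filter.Eventually.of_forall fun s => by
          have h3 : (fun j => F j (s : ℂ)) = fun j => f j s := funext fun j => hFf j s
          rw [h3, eval_map]
          exact hall G hG hGe s))
      have h4 := h2 z
      rwa [eval_map] at h4
    have hne : (fun j => F j (t0 : ℂ)) ≠ 0 := by
      intro h0
      obtain ⟨k, hk⟩ := Function.ne_iff.1 P0.rep_nonzero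
      have hk' : P0.rep k ≠ 0 := hk
      have h1 : F k (t0 : ℂ) = 0 := congrFun h0 k
      rw [hFf, hP0] at h1
      exact mul_ne_zero hc0 ((map_ne_zero τ).2 hk') h1
    obtain ⟨M, Φ, hΦ0, hΦ⟩ := closure_curve (f := fun z j => F j z) hF ⟨t0, hne⟩
    refine ⟨M, Φ, ⟨hΦ0, fun v => ?_⟩, ?_⟩
    · intro G hG hGh
      rw [eval₂_eq_eval_map]
      obtain ⟨e, he⟩ := hGh
      refine (hΦ _ ⟨e, he.map σ⟩).1 (fun z => ?_) v
      rw [← eval₂_eq_eval_map]
      exact hX z G hG ⟨e, he⟩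
    · rintro P ⟨t, c, hc, hP⟩ G ⟨e, he⟩ hG
      have h1 := (hΦ G ⟨e, he⟩).2 hG t
      have h2 : (fun j => F j (t : ℂ)) = fun j => c * τ (P.rep j) :=
        funext fun j => (hFf j t).trans (hP j)
      have h3 := eval₂_smul_homog (RingHom.id ℂ) c (fun j => τ (P.rep j)) he
      have h4 : ∀ y : Fin (N + 1) → ℂ, eval₂ (RingHom.id ℂ) y G = eval y G := fun y => rfl
      rw [h4, h4] at h3
      change eval (fun j => F j (t : ℂ)) G = 0 at h1
      rw [h2, h3] at h1
      exact (mul_eq_zero.1 h1).resolve_left (pow_ne_zero _ hc)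
  · left
    push Not at hall
    obtain ⟨G, hG, ⟨e, hed, he⟩, t0, ht0⟩ := hall
    have h1 : {t : ℝ | eval (fun j => f j t) (MvPolynomial.map σ G) = 0}.encard ≤ B := by
      refine hB f hf _ ?_ ⟨t0, by rwa [eval_map]⟩
      refine (he.map σ).totalDegree_le.trans hed
    refine le_trans ?_ h1
    have h3 : ∀ P : (Pts L I ∩ GivenBy τ f : Set (ℙ L (Fin (N + 1) → L))),
        ∃ (t : ℝ) (c : ℂ), c ≠ 0 ∧ ∀ j, f j t = c * τ (P.1.rep j) := fun P => P.2.2
    choose T C hC hT using h3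
    refine Set.encard_le_encard_of_injOn (f := fun P =>
      if h : P ∈ Pts L I ∩ GivenBy τ f then T ⟨P, h⟩ else 0) ?_ ?_
    · intro P hP
      beta_reduce
      rw [dif_pos hP]
      change eval (fun j => f j (T ⟨P, hP⟩)) (MvPolynomial.map σ G) = 0
      rw [eval_map, hsmul G e he (T ⟨P, hP⟩) (C ⟨P, hP⟩) P (hT ⟨P, hP⟩)]
      have h4 : eval₂ (algebraMap K L) P.rep G = 0 := hP.1 G hG ⟨e, he⟩
      rw [h4, map_zero, mul_zero]
    · intro P hP Q hQ hPQ
      simp only [dif_pos hP, dif_pos hQ] at hPQ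
      apply eq_of_prop
      intro i j
      have a1 := hT ⟨P, hP⟩ i
      have a2 := hT ⟨P, hP⟩ j
      have a3 := hT ⟨Q, hQ⟩ i
      have a4 := hT ⟨Q, hQ⟩ j
      rw [hPQ] at a1 a2
      apply τ.injective
      rw [map_mul, map_mul]
      apply mul_left_cancel₀ (mul_ne_zero (hC ⟨P, hP⟩) (hC ⟨Q, hQ⟩))
      have a5 : (C ⟨P, hP⟩ * τ (P.rep i)) * (C ⟨Q, hQ⟩ * τ (Q.rep j)) =
          (C ⟨P, hP⟩ * τ (P.rep j)) * (C ⟨Q, hQ⟩ * τ (Q.rep i)) := by
        rw [← a1, ← a2, ← a3, ← a4]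
        ring
      linear_combination a5

theorem notDense_of {K : Type} [Field K] {σ : K →+* ℂ} {I : Ideal (MvPolynomial (Fin (N + 1)) K)}
    (h : ¬ Unirat σ I) {M : ℕ} {Φ : Fin (N + 1) → MvPolynomial (Fin M) ℂ}
    (hΦ : RationalMap σ I Φ) {L : Type} [Field L] (τ : L →+* ℂ)
    {S : Set (ℙ L (Fin (N + 1) → L))} (hS : ∀ P ∈ S, InClosure Φ fun j => τ (P.rep j)) :
    NotDense σ I τ S := by
  unfold Unirat at h
  push Not at h
  obtain ⟨x, hx, hxΦ⟩ := h M Φ hΦ
  unfold InClosure at hxΦ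
  push Not at hxΦ
  obtain ⟨G, hG, hGΦ, hne⟩ := hxΦ
  exact ⟨G, hG, fun P hP => hS P hP G hG hGΦ, x, hx, hne⟩

end Pool.Agent.Helper435.RT
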