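import Mathlib

/-!
# The powers of different primes are Zariski dense
-/

set_option autoImplicit false

namespace Pool.Agent.Helper435.RT

open MvPolynomial

/-- the primes -/
noncomputable def prm (i : ℕ) : ℕ := Nat.nth Nat.Prime i

theorem prm_prime (i : ℕ) : (prm i).Prime := Nat.prime_nth_prime i

theorem prm_inj : Function.Injective prm := Nat.nth_injective Nat.infinite_setOfPred_prime

theorem prod_factorization {M : ℕ} (α : Fin M →₀ ℕ) (j : Fin M) :
    (∏ i : Fin M, prm i ^ α i).factorization (prm j) = α j := by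
  classical
  have h0 := Nat.factorization_prod (S := Finset.univ) (g := fun i : Fin M => prm i ^ α i)
    (fun i _ => pow_ne_zero _ (prm_prime i).ne_zero)
  rw [h0, Finsupp.finsetSum_apply, Finset.sum_eq_single j]
  · rw [(prm_prime j).factorization_pow, Finsupp.single_eq_same]
  · intro i _ hij
    rw [(prm_prime i).factorization_pow, Finsupp.single_eq_of_ne]
    intro h
    exact hij (Fin.ext (prm_inj h).symm)
  · intro h
    exact absurd (Finset.mem_univ j) h

theorem zero_of_primes {M : ℕ} {R : MvPolynomial (Fin M) ℂ}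
    (hR : ∀ k : ℕ, eval (fun i : Fin M => (prm i : ℂ) ^ k) R = 0) : R = 0 := by
  classical
  let ν : (Fin M →₀ ℕ) → ℂ := fun α => ((∏ i : Fin M, prm i ^ α i : ℕ) : ℂ)
  have hν : Function.Injective ν := by
    intro α β h
    have h1 : (∏ i : Fin M, prm i ^ α i) = ∏ i : Fin M, prm i ^ β i := Nat.cast_injective h
    ext j
    rw [← prod_factorization α j, h1, prod_factorization]
  have h1 : ∀ k : ℕ, ∑ α ∈ R.support, R.coeff α * ν α ^ k = 0 := by
    intro k
    rw [← hR k, eval_eq']
    refine Finset.sum_congr rfl fun α _ => ?_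
    congr 1
    simp only [ν]
    rw [Nat.cast_prod, ← Finset.prod_pow]
    refine Finset.prod_congr rfl fun i _ => ?_
    rw [Nat.cast_pow, ← pow_mul, ← pow_mul, mul_comm]
  have h2 : ∀ q : Polynomial ℂ, ∑ α ∈ R.support, R.coeff α * q.eval (ν α) = 0 := by
    intro q
    induction q using Polynomial.induction_on' with
    | add p q hp hq =>
      simp only [Polynomial.eval_add, mul_add, Finset.sum_add_distrib, hp, hq, add_zero]
    | monomial k a =>
      simp only [Polynomial.eval_monomial]
      have h3 : ∀ α, R.coeff α * (a * ν α ^ k) = a * (R.coeff α * ν α ^ k) := fun α => by ring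
      simp only [h3]
      rw [← Finset.mul_sum, h1, mul_zero]
  by_contra hne
  obtain ⟨α, hα⟩ := Finset.nonempty_iff_ne_empty.2 fun h => hne (support_eq_empty.1 h)
  have h3 := h2 (∏ β ∈ R.support.erase α, (Polynomial.X - Polynomial.C (ν β)))
  rw [Finset.sum_eq_single α] at h3
  · rw [Polynomial.eval_prod] at h3
    rcases mul_eq_zero.1 h3 with h4 | h4
    · exact (mem_support_iff.1 hα) h4
    · obtain ⟨β, hβ, h5⟩ := Finset.prod_eq_zero_iff.1 h4
      rw [Polynomial.eval_sub, Polynomial.eval_X, Polynomial.eval_C, sub_eq_zero] at h5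
      exact (Finset.mem_erase.1 hβ).1 (hν h5).symm
  · intro β hβ hβα
    rw [Polynomial.eval_prod, Finset.prod_eq_zero (Finset.mem_erase.2 ⟨hβα, hβ⟩), mul_zero]
    rw [Polynomial.eval_sub, Polynomial.eval_X, Polynomial.eval_C, sub_self]
  · intro h
    exact absurd hα h

end Pool.Agent.Helper435.RT
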