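import Pool.Agent.Helper435.RT.MainD
import Pool.Agent.Helper435.RT.FormA
import Pool.Agent.Helper435.RT.Prm

/-!
# Dense sets of points given by formulas
-/

set_option autoImplicit false

namespace Pool.Agent.Helper435.RT

open MvPolynomial
open scoped LinearAlgebra.Projectivization

variable {K : Type} [Field K] {N : ℕ}

theorem Formula.mvpoly {M : ℕ} {E : Fin M → ℝ → ℂ} (hE : ∀ i, ∃ n, Formula n (E i))
    (R : MvPolynomial (Fin M) ℂ) : ∃ n, Formula n fun t => eval (fun i => E i t) R := by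
  induction R using MvPolynomial.induction_on with
  | C a => exact ⟨0, by simpa only [eval_C] using Formula.const a⟩
  | add p q hp hq =>
    obtain ⟨m, hm⟩ := hp
    obtain ⟨n, hn⟩ := hq
    exact ⟨_, by simpa only [map_add] using hm.add hn⟩
  | mul_X p i hp =>
    obtain ⟨m, hm⟩ := hp
    obtain ⟨n, hn⟩ := hE i
    exact ⟨_, by simpa only [map_mul, eval_X] using hm.mul hn⟩

/-- **The converse.** -/
theorem dense_of_unirat {σ : K →+* ℂ} {L : Type} [Field L] [Algebra K L] {τ : L →+* ℂ}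
    {I : Ideal (MvPolynomial (Fin (N + 1)) K)} (h : UniratOver σ τ I) :
    ∃ (n : ℕ) (f : Fin (N + 1) → ℝ → ℂ), (∀ j, Formula n (f j)) ∧
      ¬ NotDense σ I τ (Pts L I ∩ GivenBy τ f) := by
  classical
  obtain ⟨M, Φ, ⟨⟨j0, hj0⟩, hΦ⟩, hd⟩ := h
  have hE : ∀ i : Fin M, ∃ n, Formula n
      (fun t => ((Real.exp (Real.log (prm i) * t) : ℝ) : ℂ)) := fun i => formula_exp _
  choose n hn using fun j => Formula.mvpoly hE (MvPolynomial.map τ (Φ j))
  refine ⟨Finset.univ.sup n, _, fun j => (hn j).mono (Finset.le_sup (Finset.mem_univ j)), ?_⟩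
  rintro ⟨G, hG, hS, x, hx, hGx⟩
  apply hGx
  refine hd x hx G hG ?_
  -- the polynomial in the variables of the affine space
  have hexp : ∀ (k : ℕ) (i : Fin M), ((Real.exp (Real.log (prm i) * k) : ℝ) : ℂ) =
      τ ((prm i : L) ^ k) := by
    intro k i
    have h1 : Real.exp (Real.log (prm i) * k) = (prm i : ℝ) ^ k := by
      rw [mul_comm, Real.exp_nat_mul, Real.exp_log (by exact_mod_cast (prm_prime i).pos)]
    rw [h1, map_pow, map_natCast]
    push_cast
    rfl
  have hval : ∀ (k : ℕ) (j : Fin (N + 1)),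
      eval (fun i : Fin M => ((Real.exp (Real.log (prm i) * k) : ℝ) : ℂ))
        (MvPolynomial.map τ (Φ j)) = τ (eval (fun i : Fin M => (prm i : L) ^ k) (Φ j)) := by
    intro k j
    have h1 : (fun i : Fin M => ((Real.exp (Real.log (prm i) * k) : ℝ) : ℂ)) =
        fun i : Fin M => τ ((prm i : L) ^ k) := funext fun i => hexp k i
    rw [h1, eval_map]
    have h2 := eval₂_comp_left τ (RingHom.id L) (fun i : Fin M => (prm i : L) ^ k) (Φ j)
    rw [RingHom.comp_id] at h2
    exact h2.symm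
  have hbe : ∀ v : Fin M → ℂ, eval v (bind₁ (fun j => MvPolynomial.map τ (Φ j)) G) =
      eval (fun j => eval v (MvPolynomial.map τ (Φ j))) G := by
    intro v
    rw [eval, eval₂Hom_bind₁]
    rfl
  have hR : (MvPolynomial.map τ (Φ j0)) * bind₁ (fun j => MvPolynomial.map τ (Φ j)) G = 0 := by
    apply zero_of_primes
    intro k
    have hpk : (fun i : Fin M => (prm i : ℂ) ^ k) =
        fun i : Fin M => ((Real.exp (Real.log (prm i) * k) : ℝ) : ℂ) := by
      funext i
      rw [hexp, map_pow, map_natCast]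
    rw [map_mul, hbe, hpk, hval]
    by_cases hy : eval (fun i : Fin M => (prm i : L) ^ k) (Φ j0) = 0
    · rw [hy, map_zero, zero_mul]
    · -- the point
      set y : Fin (N + 1) → L := fun j => eval (fun i : Fin M => (prm i : L) ^ k) (Φ j) with hydef
      have hy0 : y ≠ 0 := fun h0 => hy (congrFun h0 j0)
      obtain ⟨a, ha⟩ := Projectivization.exists_smul_eq_mk_rep L y hy0
      have hrep : ∀ j, (Projectivization.mk L y hy0).rep j = (a : L) * y j := by
        intro j
        rw [← ha]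
        rfl
      have h1 := hS (Projectivization.mk L y hy0) ⟨(mem_pts hy0).2 (hΦ _), (k : ℝ),
        τ ((a : L)⁻¹), by
          rw [Ne, map_eq_zero]
          exact inv_ne_zero a.ne_zero, fun j => by
          rw [hrep, ← map_mul, inv_mul_cancel_left₀ a.ne_zero]
          exact hval k j⟩
      obtain ⟨e, he⟩ := hG
      have h2 : (fun j => τ ((Projectivization.mk L y hy0).rep j)) = fun j => τ a * τ (y j) := by
        funext j
        rw [hrep, map_mul]
      have h3 := Pool.Agent.TH143.HE.eval₂_smul_homog (RingHom.id ℂ) (τ a) (fun j => τ (y j)) he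
      have h4 : ∀ z : Fin (N + 1) → ℂ, eval₂ (RingHom.id ℂ) z G = eval z G := fun z => rfl
      rw [h4, h4] at h3
      rw [h2, h3] at h1
      have h5 := (mul_eq_zero.1 h1).resolve_left
        (pow_ne_zero _ ((map_ne_zero τ).2 a.ne_zero))
      have h6 : (fun j => eval (fun i : Fin M => ((Real.exp (Real.log (prm i) * k) : ℝ) : ℂ))
          (MvPolynomial.map τ (Φ j))) = fun j => τ (y j) := funext fun j => hval k j
      rw [h6, h5, mul_zero]
  have h1 : bind₁ (fun j => MvPolynomial.map τ (Φ j)) G = 0 := by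
    refine (mul_eq_zero.1 hR).resolve_left fun h0 => hj0 ?_
    exact MvPolynomial.map_injective τ τ.injective (h0.trans (map_zero _).symm)
  intro v
  rw [← hbe, h1, map_zero]

/-- a single point is not dense -/
theorem notDense_point {σ : K →+* ℂ} {I : Ideal (MvPolynomial (Fin (N + 1)) K)}
    (h : ¬ Unirat σ I) {L : Type} [Field L] [Algebra K L] {τ : L →+* ℂ}
    (hτ : τ.comp (algebraMap K L) = σ) {P : ℙ L (Fin (N + 1) → L)} (hP : P ∈ Pts L I) :
    NotDense σ I τ {P} := by
  obtain ⟨k, hk⟩ := Function.ne_iff.1 P.rep_nonzero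
  have hk' : P.rep k ≠ 0 := hk
  refine notDense_of h (M := 0) (Φ := fun j => C (τ (P.rep j))) ⟨⟨k, ?_⟩, fun v => ?_⟩ τ ?_
  · rw [Ne, C_eq_zero, map_eq_zero]
    exact hk'
  · simp only [eval_C]
    intro G hG hGh
    have h1 : eval₂ (algebraMap K L) P.rep G = 0 := hP G hG hGh
    have h2 := eval₂_comp_left τ (algebraMap K L) P.rep G
    rw [h1, map_zero, hτ] at h2
    exact h2.symm
  · rintro Q rfl G _ hG
    have h1 := hG 0
    simp only [eval_C] at h1
    exact h1

theorem notDense_finite {σ : K →+* ℂ} {I : Ideal (MvPolynomial (Fin (N + 1)) K)}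
    (h : ¬ Unirat σ I) (hirr : GeomIrreducible σ I) (hne : ∃ x, Lies σ I x ∧ x ≠ 0)
    {L : Type} [Field L] [Algebra K L] {τ : L →+* ℂ}
    (hτ : τ.comp (algebraMap K L) = σ) {S : Set (ℙ L (Fin (N + 1) → L))} (hS : S.Finite)
    (hSX : S ⊆ Pts L I) : NotDense σ I τ S := by
  classical
  induction S, hS using Set.Finite.induction_on with
  | empty =>
    obtain ⟨x, hx, hx0⟩ := hne
    obtain ⟨k, hk⟩ := Function.ne_iff.1 hx0
    exact ⟨X k, ⟨1, isHomogeneous_X ℂ k⟩, fun P hP => hP.elim, x, hx, by rw [eval_X]; exact hk⟩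
  | @insert P S _ _ ih =>
    obtain ⟨G, hG, hGS, x, hx, hGx⟩ := ih fun Q hQ => hSX (Set.mem_insert_of_mem _ hQ)
    obtain ⟨H, hH, hHS, y, hy, hHy⟩ := notDense_point h hτ (hSX (Set.mem_insert P S))
    by_contra hcon
    have h1 : ∀ x, Lies σ I x → eval x (G * H) = 0 := by
      intro z hz
      by_contra hne
      obtain ⟨d, hd⟩ := hG
      obtain ⟨e, he⟩ := hH
      refine hcon ⟨G * H, ⟨d + e, hd.mul he⟩, fun Q hQ => ?_, z, hz, hne⟩
      rw [map_mul]
      rcases hQ with rfl | hQ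
      · rw [hHS Q rfl, mul_zero]
      · rw [hGS Q hQ, zero_mul]
    rcases hirr G H hG hH h1 with h2 | h2
    · exact hGx (h2 x hx)
    · exact hHy (h2 y hy)

theorem mainE : ∃ B : ℕ → ℕ → ℕ → ℕ, ∀ (K : Type) [Field K] (σ : K →+* ℂ) (N : ℕ)
    (I : Ideal (MvPolynomial (Fin (N + 1)) K)) (L : Type) [Field L] [Algebra K L] (τ : L →+* ℂ),
    τ.comp (algebraMap K L) = σ →
    (¬ Unirat σ I → ∀ (n : ℕ) (f : Fin (N + 1) → ℝ → ℂ), (∀ j, Formula n (f j)) →
      (∀ d, GenBy d I → (Pts L I ∩ GivenBy τ f).encard ≤ B N d n ∨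
        NotDense σ I τ (Pts L I ∩ GivenBy τ f)) ∧
      (GeomIrreducible σ I → (∃ x, Lies σ I x ∧ x ≠ 0) →
        NotDense σ I τ (Pts L I ∩ GivenBy τ f))) ∧
    (UniratOver σ τ I → ∃ (n : ℕ) (f : Fin (N + 1) → ℝ → ℂ), (∀ j, Formula n (f j)) ∧
      ¬ NotDense σ I τ (Pts L I ∩ GivenBy τ f)) := by
  choose B hB using exists_dich
  refine ⟨B, fun K _ σ N I L _ _ τ hτ => ⟨fun hnu n f hf => ?_, dense_of_unirat⟩⟩
  have h1 : ∀ d, GenBy d I → (Pts L I ∩ GivenBy τ f).encard ≤ B N d n ∨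
      NotDense σ I τ (Pts L I ∩ GivenBy τ f) := by
    intro d hd
    rcases hB N d n K σ I hd L τ hτ f hf with h2 | ⟨M, Φ, hΦ, h2⟩
    · exact Or.inl h2
    · exact Or.inr (notDense_of hnu hΦ τ fun P hP => h2 P hP.2)
  refine ⟨h1, fun hirr hne => ?_⟩
  obtain ⟨d, hd⟩ := exists_genBy I
  rcases h1 d hd with h2 | h2
  · exact notDense_finite hnu hirr hne hτ (Set.finite_of_encard_le_coe h2) Set.inter_subset_left
  · exact h2

end Pool.Agent.Helper435.RT
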